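import Pool.Agent.H28.GR.Fin

/-!
# Certificates, checked by the kernel
-/

set_option autoImplicit false
set_option maxRecDepth 100000

namespace Pool.Agent.H28.GR

theorem d_6_5 : okC 1000000000000000009
    100000000000000000000000000000000000000000000000000000000000000000000000000000129 1 0 0 6 5
    []
    [(0, 8)]
    []
    []
    [(0, 3)]
    [] :=
  ⟨by decide +kernel, by decide +kernel, by decide +kernel, by decide +kernel, by decide +kernel,
    by decide +kernel, by decide +kernel, by decide +kernel⟩

theorem d_6_6 : okC 1000000000000000009
    100000000000000000000000000000000000000000000000000000000000000000000000000000129 1 0 0 6 6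
    []
    [(0, 7)]
    []
    []
    [(0, 2)]
    [] :=
  ⟨by decide +kernel, by decide +kernel, by decide +kernel, by decide +kernel, by decide +kernel,
    by decide +kernel, by decide +kernel, by decide +kernel⟩

theorem d_6_7 : okC 1000000000000000009
    100000000000000000000000000000000000000000000000000000000000000000000000000000129 1 0 0 6 7
    []
    [(0, 9)]
    []
    []
    [(0, 2)]
    [] :=
  ⟨by decide +kernel, by decide +kernel, by decide +kernel, by decide +kernel, by decide +kernel,
    by decide +kernel, by decide +kernel, by decide +kernel⟩

theorem d_6_8 : okC 1000000000000000009
    100000000000000000000000000000000000000000000000000000000000000000000000000000129 1 0 0 6 8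
    []
    [(0, 5)]
    []
    []
    [(0, 1)]
    [] :=
  ⟨by decide +kernel, by decide +kernel, by decide +kernel, by decide +kernel, by decide +kernel,
    by decide +kernel, by decide +kernel, by decide +kernel⟩

theorem d_6_9 : okC 1000000000000000009
    100000000000000000000000000000000000000000000000000000000000000000000000000000129 1 0 0 6 9
    []
    [(0, 6)]
    []
    []
    [(0, 1)]
    [] :=
  ⟨by decide +kernel, by decide +kernel, by decide +kernel, by decide +kernel, by decide +kernel,
    by decide +kernel, by decide +kernel, by decide +kernel⟩

theorem d_7_5 : okC 1000000000000000009
    100000000000000000000000000000000000000000000000000000000000000000000000000000129 1 0 0 7 5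
    []
    [(0, 5)]
    []
    []
    [(0, 2)]
    [] :=
  ⟨by decide +kernel, by decide +kernel, by decide +kernel, by decide +kernel, by decide +kernel,
    by decide +kernel, by decide +kernel, by decide +kernel⟩

theorem d_7_6 : okC 1000000000000000009
    100000000000000000000000000000000000000000000000000000000000000000000000000000129 1 0 0 7 6
    []
    [(0, 3)]
    []
    []
    [(0, 1)]
    [] :=
  ⟨by decide +kernel, by decide +kernel, by decide +kernel, by decide +kernel, by decide +kernel,
    by decide +kernel, by decide +kernel, by decide +kernel⟩

theorem d_7_7 : okC 1000000000000000009
    100000000000000000000000000000000000000000000000000000000000000000000000000000129 1 0 0 7 7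
    []
    [(0, 4)]
    []
    []
    [(0, 1)]
    [] :=
  ⟨by decide +kernel, by decide +kernel, by decide +kernel, by decide +kernel, by decide +kernel,
    by decide +kernel, by decide +kernel, by decide +kernel⟩

theorem d_7_8 : okC 1000000000000000009
    100000000000000000000000000000000000000000000000000000000000000000000000000000129 1 0 0 7 8
    []
    [(0, 5)]
    []
    []
    [(0, 1)]
    [] :=
  ⟨by decide +kernel, by decide +kernel, by decide +kernel, by decide +kernel, by decide +kernel,
    by decide +kernel, by decide +kernel, by decide +kernel⟩

theorem d_7_9 : okC 1000000000000000009
    100000000000000000000000000000000000000000000000000000000000000000000000000000129 1 0 0 7 9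
    []
    [(0, 5)]
    []
    []
    [(0, 1)]
    [] :=
  ⟨by decide +kernel, by decide +kernel, by decide +kernel, by decide +kernel, by decide +kernel,
    by decide +kernel, by decide +kernel, by decide +kernel⟩

theorem d_7_10 : okC 1000000000000000009
    100000000000000000000000000000000000000000000000000000000000000000000000000000129 1 0 0 7 10
    []
    [(0, 6)]
    []
    []
    [(0, 1)]
    [] :=
  ⟨by decide +kernel, by decide +kernel, by decide +kernel, by decide +kernel, by decide +kernel,
    by decide +kernel, by decide +kernel, by decide +kernel⟩

theorem d_8_5 : okC 1000000000000000009
    100000000000000000000000000000000000000000000000000000000000000000000000000000129 1 0 0 8 5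
    []
    [(0, 5)]
    []
    []
    [(0, 2)]
    [] :=
  ⟨by decide +kernel, by decide +kernel, by decide +kernel, by decide +kernel, by decide +kernel,
    by decide +kernel, by decide +kernel, by decide +kernel⟩

theorem d_8_6 : okC 1000000000000000009
    100000000000000000000000000000000000000000000000000000000000000000000000000000129 1 0 0 8 6
    []
    [(0, 3)]
    []
    []
    [(0, 1)]
    [] :=
  ⟨by decide +kernel, by decide +kernel, by decide +kernel, by decide +kernel, by decide +kernel,
    by decide +kernel, by decide +kernel, by decide +kernel⟩

theorem d_8_7 : okC 1000000000000000009
    100000000000000000000000000000000000000000000000000000000000000000000000000000129 1 0 0 8 7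
    []
    [(0, 4)]
    []
    []
    [(0, 1)]
    [] :=
  ⟨by decide +kernel, by decide +kernel, by decide +kernel, by decide +kernel, by decide +kernel,
    by decide +kernel, by decide +kernel, by decide +kernel⟩

theorem d_8_8 : okC 1000000000000000009
    100000000000000000000000000000000000000000000000000000000000000000000000000000129 1 0 0 8 8
    []
    [(0, 4)]
    []
    []
    [(0, 1)]
    [] :=
  ⟨by decide +kernel, by decide +kernel, by decide +kernel, by decide +kernel, by decide +kernel,
    by decide +kernel, by decide +kernel, by decide +kernel⟩

theorem d_8_9 : okC 1000000000000000009
    100000000000000000000000000000000000000000000000000000000000000000000000000000129 1 0 0 8 9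
    []
    [(0, 5)]
    []
    []
    [(0, 1)]
    [] :=
  ⟨by decide +kernel, by decide +kernel, by decide +kernel, by decide +kernel, by decide +kernel,
    by decide +kernel, by decide +kernel, by decide +kernel⟩

theorem d_8_10 : okC 1000000000000000009
    100000000000000000000000000000000000000000000000000000000000000000000000000000129 1 0 0 8 10
    []
    [(0, 6)]
    []
    []
    [(0, 1)]
    [] :=
  ⟨by decide +kernel, by decide +kernel, by decide +kernel, by decide +kernel, by decide +kernel,
    by decide +kernel, by decide +kernel, by decide +kernel⟩

theorem d_8_11 : okC 1000000000000000009
    100000000000000000000000000000000000000000000000000000000000000000000000000000129 1 0 0 8 11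
    []
    [(0, 6)]
    []
    []
    [(0, 1)]
    [] :=
  ⟨by decide +kernel, by decide +kernel, by decide +kernel, by decide +kernel, by decide +kernel,
    by decide +kernel, by decide +kernel, by decide +kernel⟩

theorem d_9_5 : okC 1000000000000000009
    100000000000000000000000000000000000000000000000000000000000000000000000000000129 1 0 0 9 5
    []
    [(0, 5)]
    []
    []
    [(0, 2)]
    [] :=
  ⟨by decide +kernel, by decide +kernel, by decide +kernel, by decide +kernel, by decide +kernel,
    by decide +kernel, by decide +kernel, by decide +kernel⟩

theorem d_9_6 : okC 1000000000000000009
    100000000000000000000000000000000000000000000000000000000000000000000000000000129 1 0 0 9 6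
    []
    [(0, 3)]
    []
    []
    [(0, 1)]
    [] :=
  ⟨by decide +kernel, by decide +kernel, by decide +kernel, by decide +kernel, by decide +kernel,
    by decide +kernel, by decide +kernel, by decide +kernel⟩

theorem d_9_7 : okC 1000000000000000009
    100000000000000000000000000000000000000000000000000000000000000000000000000000129 1 0 0 9 7
    []
    [(0, 3)]
    []
    []
    [(0, 1)]
    [] :=
  ⟨by decide +kernel, by decide +kernel, by decide +kernel, by decide +kernel, by decide +kernel,
    by decide +kernel, by decide +kernel, by decide +kernel⟩

theorem d_9_8 : okC 1000000000000000009
    100000000000000000000000000000000000000000000000000000000000000000000000000000129 1 0 0 9 8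
    []
    [(0, 4)]
    []
    []
    [(0, 1)]
    [] :=
  ⟨by decide +kernel, by decide +kernel, by decide +kernel, by decide +kernel, by decide +kernel,
    by decide +kernel, by decide +kernel, by decide +kernel⟩

theorem d_9_9 : okC 1000000000000000009
    100000000000000000000000000000000000000000000000000000000000000000000000000000129 1 0 0 9 9
    []
    [(0, 4)]
    []
    []
    [(0, 1)]
    [] :=
  ⟨by decide +kernel, by decide +kernel, by decide +kernel, by decide +kernel, by decide +kernel,
    by decide +kernel, by decide +kernel, by decide +kernel⟩

theorem d_9_10 : okC 1000000000000000009
    100000000000000000000000000000000000000000000000000000000000000000000000000000129 1 0 0 9 10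
    []
    [(0, 5)]
    []
    []
    [(0, 1)]
    [] :=
  ⟨by decide +kernel, by decide +kernel, by decide +kernel, by decide +kernel, by decide +kernel,
    by decide +kernel, by decide +kernel, by decide +kernel⟩

theorem d_9_11 : okC 1000000000000000009
    100000000000000000000000000000000000000000000000000000000000000000000000000000129 1 0 0 9 11
    []
    [(0, 6)]
    []
    []
    [(0, 1)]
    [] :=
  ⟨by decide +kernel, by decide +kernel, by decide +kernel, by decide +kernel, by decide +kernel,
    by decide +kernel, by decide +kernel, by decide +kernel⟩

theorem d_10_5 : okC 1000000000000000009
    100000000000000000000000000000000000000000000000000000000000000000000000000000129 1 0 0 10 5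
    []
    [(0, 2)]
    []
    []
    [(0, 1)]
    [] :=
  ⟨by decide +kernel, by decide +kernel, by decide +kernel, by decide +kernel, by decide +kernel,
    by decide +kernel, by decide +kernel, by decide +kernel⟩

theorem d_10_6 : okC 1000000000000000009
    100000000000000000000000000000000000000000000000000000000000000000000000000000129 1 0 0 10 6
    []
    [(0, 3)]
    []
    []
    [(0, 1)]
    [] :=
  ⟨by decide +kernel, by decide +kernel, by decide +kernel, by decide +kernel, by decide +kernel,
    by decide +kernel, by decide +kernel, by decide +kernel⟩

theorem d_10_7 : okC 1000000000000000009
    100000000000000000000000000000000000000000000000000000000000000000000000000000129 1 0 0 10 7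
    []
    [(0, 3)]
    []
    []
    [(0, 1)]
    [] :=
  ⟨by decide +kernel, by decide +kernel, by decide +kernel, by decide +kernel, by decide +kernel,
    by decide +kernel, by decide +kernel, by decide +kernel⟩

theorem d_10_8 : okC 1000000000000000009
    100000000000000000000000000000000000000000000000000000000000000000000000000000129 1 0 0 10 8
    []
    [(0, 4)]
    []
    []
    [(0, 1)]
    [] :=
  ⟨by decide +kernel, by decide +kernel, by decide +kernel, by decide +kernel, by decide +kernel,
    by decide +kernel, by decide +kernel, by decide +kernel⟩

theorem d_10_9 : okC 1000000000000000009
    100000000000000000000000000000000000000000000000000000000000000000000000000000129 1 0 0 10 9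
    []
    [(0, 4)]
    []
    []
    [(0, 1)]
    [] :=
  ⟨by decide +kernel, by decide +kernel, by decide +kernel, by decide +kernel, by decide +kernel,
    by decide +kernel, by decide +kernel, by decide +kernel⟩

theorem d_10_10 : okC 1000000000000000009
    100000000000000000000000000000000000000000000000000000000000000000000000000000129 1 0 0 10 10
    []
    [(0, 5)]
    []
    []
    [(0, 1)]
    [] :=
  ⟨by decide +kernel, by decide +kernel, by decide +kernel, by decide +kernel, by decide +kernel,
    by decide +kernel, by decide +kernel, by decide +kernel⟩

theorem d_10_11 : okC 1000000000000000009
    100000000000000000000000000000000000000000000000000000000000000000000000000000129 1 0 0 10 11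
    []
    [(0, 5)]
    []
    []
    [(0, 1)]
    [] :=
  ⟨by decide +kernel, by decide +kernel, by decide +kernel, by decide +kernel, by decide +kernel,
    by decide +kernel, by decide +kernel, by decide +kernel⟩

theorem d_10_12 : okC 1000000000000000009
    100000000000000000000000000000000000000000000000000000000000000000000000000000129 1 0 0 10 12
    []
    [(0, 6)]
    []
    []
    [(0, 1)]
    [] :=
  ⟨by decide +kernel, by decide +kernel, by decide +kernel, by decide +kernel, by decide +kernel,
    by decide +kernel, by decide +kernel, by decide +kernel⟩

end Pool.Agent.H28.GR
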