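import Pool.Agent.H28.GR.Fin

/-!
# Certificates, checked by the kernel
-/

set_option autoImplicit false
set_option maxRecDepth 100000

namespace Pool.Agent.H28.GR

theorem d_11_5 : okC 1000000000000000009
    100000000000000000000000000000000000000000000000000000000000000000000000000000129 1 0 0 11 5
    []
    [(0, 2)]
    []
    []
    [(0, 1)]
    [] :=
  ⟨by decide +kernel, by decide +kernel, by decide +kernel, by decide +kernel, by decide +kernel,
    by decide +kernel, by decide +kernel, by decide +kernel⟩

theorem d_11_6 : okC 1000000000000000009
    100000000000000000000000000000000000000000000000000000000000000000000000000000129 1 0 0 11 6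
    []
    [(0, 5)]
    []
    []
    [(0, 2)]
    [] :=
  ⟨by decide +kernel, by decide +kernel, by decide +kernel, by decide +kernel, by decide +kernel,
    by decide +kernel, by decide +kernel, by decide +kernel⟩

theorem d_11_7 : okC 1000000000000000009
    100000000000000000000000000000000000000000000000000000000000000000000000000000129 1 0 0 11 7
    []
    [(0, 3)]
    []
    []
    [(0, 1)]
    [] :=
  ⟨by decide +kernel, by decide +kernel, by decide +kernel, by decide +kernel, by decide +kernel,
    by decide +kernel, by decide +kernel, by decide +kernel⟩

theorem d_11_8 : okC 1000000000000000009
    100000000000000000000000000000000000000000000000000000000000000000000000000000129 1 0 0 11 8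
    []
    [(0, 3)]
    []
    []
    [(0, 1)]
    [] :=
  ⟨by decide +kernel, by decide +kernel, by decide +kernel, by decide +kernel, by decide +kernel,
    by decide +kernel, by decide +kernel, by decide +kernel⟩

theorem d_11_9 : okC 1000000000000000009
    100000000000000000000000000000000000000000000000000000000000000000000000000000129 1 0 0 11 9
    []
    [(0, 4)]
    []
    []
    [(0, 1)]
    [] :=
  ⟨by decide +kernel, by decide +kernel, by decide +kernel, by decide +kernel, by decide +kernel,
    by decide +kernel, by decide +kernel, by decide +kernel⟩

theorem d_11_10 : okC 1000000000000000009
    100000000000000000000000000000000000000000000000000000000000000000000000000000129 1 0 0 11 10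
    []
    [(0, 4)]
    []
    []
    [(0, 1)]
    [] :=
  ⟨by decide +kernel, by decide +kernel, by decide +kernel, by decide +kernel, by decide +kernel,
    by decide +kernel, by decide +kernel, by decide +kernel⟩

theorem d_11_11 : okC 1000000000000000009
    100000000000000000000000000000000000000000000000000000000000000000000000000000129 1 0 0 11 11
    []
    [(0, 5)]
    []
    []
    [(0, 1)]
    [] :=
  ⟨by decide +kernel, by decide +kernel, by decide +kernel, by decide +kernel, by decide +kernel,
    by decide +kernel, by decide +kernel, by decide +kernel⟩

theorem d_11_12 : okC 1000000000000000009
    100000000000000000000000000000000000000000000000000000000000000000000000000000129 1 0 0 11 12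
    []
    [(0, 5)]
    []
    []
    [(0, 1)]
    [] :=
  ⟨by decide +kernel, by decide +kernel, by decide +kernel, by decide +kernel, by decide +kernel,
    by decide +kernel, by decide +kernel, by decide +kernel⟩

theorem d_11_13 : okC 1000000000000000009
    100000000000000000000000000000000000000000000000000000000000000000000000000000129 1 0 0 11 13
    []
    [(0, 6)]
    []
    []
    [(0, 1)]
    [] :=
  ⟨by decide +kernel, by decide +kernel, by decide +kernel, by decide +kernel, by decide +kernel,
    by decide +kernel, by decide +kernel, by decide +kernel⟩

theorem d_12_6 : okC 1000000000000000009
    100000000000000000000000000000000000000000000000000000000000000000000000000000129 1 0 0 12 6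
    []
    [(0, 5)]
    []
    []
    [(0, 2)]
    [] :=
  ⟨by decide +kernel, by decide +kernel, by decide +kernel, by decide +kernel, by decide +kernel,
    by decide +kernel, by decide +kernel, by decide +kernel⟩

theorem d_12_7 : okC 1000000000000000009
    100000000000000000000000000000000000000000000000000000000000000000000000000000129 1 0 0 12 7
    []
    [(0, 3)]
    []
    []
    [(0, 1)]
    [] :=
  ⟨by decide +kernel, by decide +kernel, by decide +kernel, by decide +kernel, by decide +kernel,
    by decide +kernel, by decide +kernel, by decide +kernel⟩

theorem d_12_8 : okC 1000000000000000009
    100000000000000000000000000000000000000000000000000000000000000000000000000000129 1 0 0 12 8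
    []
    [(0, 3)]
    []
    []
    [(0, 1)]
    [] :=
  ⟨by decide +kernel, by decide +kernel, by decide +kernel, by decide +kernel, by decide +kernel,
    by decide +kernel, by decide +kernel, by decide +kernel⟩

theorem d_12_9 : okC 1000000000000000009
    100000000000000000000000000000000000000000000000000000000000000000000000000000129 1 0 0 12 9
    []
    [(0, 3)]
    []
    []
    [(0, 1)]
    [] :=
  ⟨by decide +kernel, by decide +kernel, by decide +kernel, by decide +kernel, by decide +kernel,
    by decide +kernel, by decide +kernel, by decide +kernel⟩

theorem d_13_6 : okC 1000000000000000009
    100000000000000000000000000000000000000000000000000000000000000000000000000000129 1 0 0 13 6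
    []
    [(0, 2)]
    []
    []
    [(0, 1)]
    [] :=
  ⟨by decide +kernel, by decide +kernel, by decide +kernel, by decide +kernel, by decide +kernel,
    by decide +kernel, by decide +kernel, by decide +kernel⟩

theorem d_13_7 : okC 1000000000000000009
    100000000000000000000000000000000000000000000000000000000000000000000000000000129 1 0 0 13 7
    []
    [(0, 3)]
    []
    []
    [(0, 1)]
    [] :=
  ⟨by decide +kernel, by decide +kernel, by decide +kernel, by decide +kernel, by decide +kernel,
    by decide +kernel, by decide +kernel, by decide +kernel⟩

theorem d_14_6 : okC 1000000000000000009
    100000000000000000000000000000000000000000000000000000000000000000000000000000129 1 0 0 14 6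
    []
    [(0, 2)]
    []
    []
    [(0, 1)]
    [] :=
  ⟨by decide +kernel, by decide +kernel, by decide +kernel, by decide +kernel, by decide +kernel,
    by decide +kernel, by decide +kernel, by decide +kernel⟩

theorem d_14_7 : okC 1000000000000000009
    100000000000000000000000000000000000000000000000000000000000000000000000000000129 1 0 0 14 7
    []
    [(0, 3)]
    []
    []
    [(0, 1)]
    [] :=
  ⟨by decide +kernel, by decide +kernel, by decide +kernel, by decide +kernel, by decide +kernel,
    by decide +kernel, by decide +kernel, by decide +kernel⟩

theorem d_15_7 : okC 1000000000000000009
    100000000000000000000000000000000000000000000000000000000000000000000000000000129 1 0 0 15 7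
    []
    [(0, 2)]
    []
    []
    [(0, 1)]
    [] :=
  ⟨by decide +kernel, by decide +kernel, by decide +kernel, by decide +kernel, by decide +kernel,
    by decide +kernel, by decide +kernel, by decide +kernel⟩

theorem d_16_7 : okC 1000000000000000009
    100000000000000000000000000000000000000000000000000000000000000000000000000000129 1 0 0 16 7
    []
    [(0, 2)]
    []
    []
    [(0, 1)]
    [] :=
  ⟨by decide +kernel, by decide +kernel, by decide +kernel, by decide +kernel, by decide +kernel,
    by decide +kernel, by decide +kernel, by decide +kernel⟩

theorem d_17_7 : okC 1000000000000000009
    100000000000000000000000000000000000000000000000000000000000000000000000000000129 1 0 0 17 7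
    []
    [(0, 2)]
    []
    []
    [(0, 1)]
    [] :=
  ⟨by decide +kernel, by decide +kernel, by decide +kernel, by decide +kernel, by decide +kernel,
    by decide +kernel, by decide +kernel, by decide +kernel⟩

end Pool.Agent.H28.GR
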