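import Pool.Agent.H28.GR.Fin

/-!
# Certificates, checked by the kernel
-/

set_option autoImplicit false
set_option maxRecDepth 100000

namespace Pool.Agent.H28.GR

theorem d_12_10 : okC 1000000000000000009
    100000000000000000000000000000000000000000000000000000000000000000000000000000129 1 0 0 12 10
    []
    [(0, 4)]
    []
    []
    [(0, 1)]
    [] :=
  ⟨by decide +kernel, by decide +kernel, by decide +kernel, by decide +kernel, by decide +kernel,
    by decide +kernel, by decide +kernel, by decide +kernel⟩

theorem d_12_11 : okC 1000000000000000009
    100000000000000000000000000000000000000000000000000000000000000000000000000000129 1 0 0 12 11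
    []
    [(0, 4)]
    []
    []
    [(0, 1)]
    [] :=
  ⟨by decide +kernel, by decide +kernel, by decide +kernel, by decide +kernel, by decide +kernel,
    by decide +kernel, by decide +kernel, by decide +kernel⟩

theorem d_12_12 : okC 1000000000000000009
    100000000000000000000000000000000000000000000000000000000000000000000000000000129 1 0 0 12 12
    []
    [(0, 5)]
    []
    []
    [(0, 1)]
    [] :=
  ⟨by decide +kernel, by decide +kernel, by decide +kernel, by decide +kernel, by decide +kernel,
    by decide +kernel, by decide +kernel, by decide +kernel⟩

theorem d_12_13 : okC 1000000000000000009
    100000000000000000000000000000000000000000000000000000000000000000000000000000129 1 0 0 12 13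
    []
    [(0, 5)]
    []
    []
    [(0, 1)]
    [] :=
  ⟨by decide +kernel, by decide +kernel, by decide +kernel, by decide +kernel, by decide +kernel,
    by decide +kernel, by decide +kernel, by decide +kernel⟩

theorem d_12_14 : okC 1000000000000000009
    100000000000000000000000000000000000000000000000000000000000000000000000000000129 1 0 0 12 14
    []
    [(0, 6)]
    []
    []
    [(0, 1)]
    [] :=
  ⟨by decide +kernel, by decide +kernel, by decide +kernel, by decide +kernel, by decide +kernel,
    by decide +kernel, by decide +kernel, by decide +kernel⟩

end Pool.Agent.H28.GR
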