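import Pool.Agent.H28.GR.Fin

/-!
# Certificates, checked by the kernel
-/

set_option autoImplicit false
set_option maxRecDepth 100000

namespace Pool.Agent.H28.GR

theorem d_3_3 : okC 1000000000000000009
    100000000000000000000000000000000000000000000000000000000000000000000000000000129 7 1 0 3 3
    [(2, 27)]
    [(1, 194), (3, 275)]
    [(1, 1)]
    [(2, 36), (3, 62)]
    [(1, 1), (2, 49), (3, 83)]
    [] :=
  ⟨by decide +kernel, by decide +kernel, by decide +kernel, by decide +kernel, by decide +kernel,
    by decide +kernel, by decide +kernel, by decide +kernel⟩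

theorem d_3_4 : okC 1000000000000000009
    100000000000000000000000000000000000000000000000000000000000000000000000000000129 7 1 0 3 4
    []
    [(1, 236), (2, 182), (3, 119), (4, 496)]
    [(1, 1)]
    [(2, 29), (3, 43), (4, 107)]
    [(1, 1), (2, 40), (3, 60), (4, 120)]
    [] :=
  ⟨by decide +kernel, by decide +kernel, by decide +kernel, by decide +kernel, by decide +kernel,
    by decide +kernel, by decide +kernel, by decide +kernel⟩

theorem d_3_5 : okC 1000000000000000009
    100000000000000000000000000000000000000000000000000000000000000000000000000000129 7 1 0 3 5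
    [(1, 89)]
    [(2, 42), (3, 187), (4, 392)]
    [(1, 1), (2, 14), (3, 10)]
    [(4, 94), (5, 189)]
    [(1, 1), (2, 1), (3, 1), (4, 45), (5, 281)]
    [] :=
  ⟨by decide +kernel, by decide +kernel, by decide +kernel, by decide +kernel, by decide +kernel,
    by decide +kernel, by decide +kernel, by decide +kernel⟩

theorem d_3_6 : okC 1000000000000000009
    100000000000000000000000000000000000000000000000000000000000000000000000000000129 7 1 0 3 6
    [(1, 97)]
    [(2, 34), (3, 190), (4, 380)]
    [(1, 1), (2, 16), (3, 1)]
    [(4, 34), (5, 140)]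
    [(1, 1), (2, 1), (3, 1), (4, 30), (5, 95), (6, 413)]
    [] :=
  ⟨by decide +kernel, by decide +kernel, by decide +kernel, by decide +kernel, by decide +kernel,
    by decide +kernel, by decide +kernel, by decide +kernel⟩

theorem d_3_7 : okC 1000000000000000009
    100000000000000000000000000000000000000000000000000000000000000000000000000000129 7 1 0 3 7
    [(1, 52), (2, 1)]
    [(3, 149), (4, 298)]
    [(1, 1), (2, 7)]
    [(3, 1), (4, 18), (5, 56)]
    [(1, 1), (2, 1), (3, 1), (4, 17), (5, 50), (6, 132)]
    [] :=
  ⟨by decide +kernel, by decide +kernel, by decide +kernel, by decide +kernel, by decide +kernel,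
    by decide +kernel, by decide +kernel, by decide +kernel⟩

theorem d_3_8 : okC 1000000000000000009
    100000000000000000000000000000000000000000000000000000000000000000000000000000129 7 1 0 3 8
    [(2, 87)]
    [(1, 7), (3, 89), (4, 251)]
    [(1, 1), (3, 9)]
    [(4, 10), (5, 35)]
    [(1, 1), (2, 2), (4, 1), (5, 31), (6, 71)]
    [] :=
  ⟨by decide +kernel, by decide +kernel, by decide +kernel, by decide +kernel, by decide +kernel,
    by decide +kernel, by decide +kernel, by decide +kernel⟩

theorem d_3_9 : okC 1000000000000000009
    100000000000000000000000000000000000000000000000000000000000000000000000000000129 7 1 0 3 9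
    [(2, 799)]
    [(1, 165), (3, 690), (4, 2223)]
    [(1, 1), (3, 55)]
    [(2, 7), (4, 62), (5, 239)]
    [(1, 1), (2, 11), (4, 7), (5, 196), (6, 480)]
    [(3, 4)] :=
  ⟨by decide +kernel, by decide +kernel, by decide +kernel, by decide +kernel, by decide +kernel,
    by decide +kernel, by decide +kernel, by decide +kernel⟩

theorem d_3_10 : okC 1000000000000000009
    100000000000000000000000000000000000000000000000000000000000000000000000000000129 49 1 7 3 10
    [(9, 5699), (10, 7852)]
    [(8, 10239), (16, 10350), (4, 20238)]
    [(8, 1), (10, 357), (11, 636)]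
    [(9, 480), (16, 866), (17, 530), (5, 2081)]
    [(8, 1), (9, 569), (16, 1012), (10, 10), (17, 240), (24, 2375), (6, 4586)]
    [(11, 165), (18, 325), (12, 73)] :=
  ⟨by decide +kernel, by decide +kernel, by decide +kernel, by decide +kernel, by decide +kernel,
    by decide +kernel, by decide +kernel, by decide +kernel⟩

theorem d_4_3 : okC 1000000000000000009
    100000000000000000000000000000000000000000000000000000000000000000000000000000129 8 1 0 4 3
    [(2, 45)]
    [(1, 237), (3, 213)]
    [(1, 1)]
    [(2, 47), (3, 67)]
    [(1, 1), (2, 60), (3, 85)]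
    [] :=
  ⟨by decide +kernel, by decide +kernel, by decide +kernel, by decide +kernel, by decide +kernel,
    by decide +kernel, by decide +kernel, by decide +kernel⟩

theorem d_4_4 : okC 1000000000000000009
    100000000000000000000000000000000000000000000000000000000000000000000000000000129 8 1 0 4 4
    []
    [(1, 406), (2, 226), (3, 43), (4, 563)]
    [(1, 1)]
    [(2, 54), (3, 55), (4, 95)]
    [(1, 1), (2, 68), (3, 75), (4, 113)]
    [] :=
  ⟨by decide +kernel, by decide +kernel, by decide +kernel, by decide +kernel, by decide +kernel,
    by decide +kernel, by decide +kernel, by decide +kernel⟩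

theorem d_4_5 : okC 1000000000000000009
    100000000000000000000000000000000000000000000000000000000000000000000000000000129 8 1 0 4 5
    [(1, 1)]
    [(2, 163), (3, 209), (4, 258), (5, 935)]
    [(1, 1), (2, 1)]
    [(3, 19), (4, 66), (5, 217)]
    [(1, 1), (2, 1), (3, 30), (4, 63), (5, 209)]
    [] :=
  ⟨by decide +kernel, by decide +kernel, by decide +kernel, by decide +kernel, by decide +kernel,
    by decide +kernel, by decide +kernel, by decide +kernel⟩

theorem d_4_6 : okC 1000000000000000009
    100000000000000000000000000000000000000000000000000000000000000000000000000000129 8 1 0 4 6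
    [(1, 1), (2, 4)]
    [(3, 246), (4, 246), (5, 1112)]
    [(1, 1), (2, 15), (3, 4)]
    [(4, 22), (5, 186), (6, 349)]
    [(1, 1), (2, 1), (3, 1), (4, 38), (5, 82), (6, 616)]
    [] :=
  ⟨by decide +kernel, by decide +kernel, by decide +kernel, by decide +kernel, by decide +kernel,
    by decide +kernel, by decide +kernel, by decide +kernel⟩

theorem d_4_7 : okC 1000000000000000009
    100000000000000000000000000000000000000000000000000000000000000000000000000000129 8 1 0 4 7
    [(1, 249)]
    [(2, 87), (3, 233), (4, 221), (5, 735)]
    [(1, 1), (2, 26)]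
    [(3, 16), (4, 18), (5, 44), (6, 260)]
    [(1, 1), (2, 1), (3, 1), (4, 39), (5, 49), (6, 80), (7, 1367)]
    [] :=
  ⟨by decide +kernel, by decide +kernel, by decide +kernel, by decide +kernel, by decide +kernel,
    by decide +kernel, by decide +kernel, by decide +kernel⟩

theorem d_4_8 : okC 1000000000000000009
    100000000000000000000000000000000000000000000000000000000000000000000000000000129 8 1 0 4 8
    [(1, 39), (2, 102)]
    [(3, 122), (4, 210), (5, 526)]
    [(1, 1), (2, 15), (3, 6)]
    [(4, 11), (5, 29), (6, 95)]
    [(1, 1), (2, 12), (4, 6), (5, 35), (6, 54), (7, 313)]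
    [(3, 4)] :=
  ⟨by decide +kernel, by decide +kernel, by decide +kernel, by decide +kernel, by decide +kernel,
    by decide +kernel, by decide +kernel, by decide +kernel⟩

theorem d_4_9 : okC 1000000000000000009
    100000000000000000000000000000000000000000000000000000000000000000000000000000129 8 1 0 4 9
    [(2, 113)]
    [(1, 21), (3, 90), (4, 207), (5, 415)]
    [(1, 1), (2, 1), (3, 8)]
    [(4, 7), (5, 21), (6, 54)]
    [(1, 1), (2, 2), (4, 1), (5, 26), (6, 39), (7, 130)]
    [] :=
  ⟨by decide +kernel, by decide +kernel, by decide +kernel, by decide +kernel, by decide +kernel,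
    by decide +kernel, by decide +kernel, by decide +kernel⟩

theorem d_4_10 : okC 1000000000000000009
    100000000000000000000000000000000000000000000000000000000000000000000000000000129 8 1 0 4 10
    [(2, 100)]
    [(1, 15), (3, 64), (4, 208), (5, 347)]
    [(1, 1), (3, 6)]
    [(4, 4), (5, 18), (6, 33)]
    [(1, 1), (2, 1), (4, 1), (5, 18), (6, 35), (7, 65)]
    [] :=
  ⟨by decide +kernel, by decide +kernel, by decide +kernel, by decide +kernel, by decide +kernel,
    by decide +kernel, by decide +kernel, by decide +kernel⟩

theorem d_4_11 : okC 1000000000000000009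
    100000000000000000000000000000000000000000000000000000000000000000000000000000129 8 1 0 4 11
    [(1, 1), (2, 154)]
    [(3, 7), (4, 166), (5, 303)]
    [(1, 1), (2, 1), (3, 9)]
    [(4, 1), (5, 12), (6, 25)]
    [(1, 1), (2, 1), (3, 4), (5, 10), (6, 25), (7, 45)]
    [(4, 4)] :=
  ⟨by decide +kernel, by decide +kernel, by decide +kernel, by decide +kernel, by decide +kernel,
    by decide +kernel, by decide +kernel, by decide +kernel⟩

theorem d_4_12 : okC 1000000000000000009
    100000000000000000000000000000000000000000000000000000000000000000000000000000129 8 1 0 4 12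
    [(1, 1), (2, 133), (3, 2)]
    [(4, 145), (5, 271)]
    [(1, 1), (2, 1), (3, 7)]
    [(5, 9), (6, 18)]
    [(1, 1), (2, 1), (3, 3), (5, 7), (6, 19), (7, 34)]
    [(4, 2)] :=
  ⟨by decide +kernel, by decide +kernel, by decide +kernel, by decide +kernel, by decide +kernel,
    by decide +kernel, by decide +kernel, by decide +kernel⟩

theorem d_4_13 : okC 1000000000000000009
    100000000000000000000000000000000000000000000000000000000000000000000000000000129 8 1 0 4 13
    [(1, 969), (3, 1278)]
    [(2, 244), (4, 984), (5, 2475)]
    [(1, 1), (2, 16), (4, 62)]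
    [(3, 9), (5, 68), (6, 146)]
    [(1, 1), (2, 3), (4, 10), (6, 154), (7, 258)]
    [(5, 25)] :=
  ⟨by decide +kernel, by decide +kernel, by decide +kernel, by decide +kernel, by decide +kernel,
    by decide +kernel, by decide +kernel, by decide +kernel⟩

theorem d_4_14 : okC 1000000000000000009
    100000000000000000000000000000000000000000000000000000000000000000000000000000129 8 1 0 4 14
    [(1, 30067), (3, 11604)]
    [(2, 5346), (4, 5670), (5, 22959)]
    [(1, 1), (2, 474), (4, 548)]
    [(3, 265), (5, 340), (6, 1331)]
    [(1, 1), (2, 403), (4, 152), (6, 926), (7, 2332)]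
    [(3, 131), (5, 229)] :=
  ⟨by decide +kernel, by decide +kernel, by decide +kernel, by decide +kernel, by decide +kernel,
    by decide +kernel, by decide +kernel, by decide +kernel⟩

theorem d_4_15 : okC 1000000000000000009
    100000000000000000000000000000000000000000000000000000000000000000000000000000129 64 1 8 4 15
    [(9, 383), (10, 143), (18, 110), (12, 859)]
    [(11, 154), (19, 719), (5, 2154)]
    [(9, 82), (18, 165), (11, 6), (27, 430), (13, 56)]
    [(10, 23), (19, 9), (12, 14), (20, 54), (6, 135)]
    [(9, 23), (18, 43), (11, 5), (19, 1), (27, 13), (28, 86), (13, 24), (7, 238)]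
    [(10, 9), (12, 8), (20, 1), (21, 19), (14, 18)] :=
  ⟨by decide +kernel, by decide +kernel, by decide +kernel, by decide +kernel, by decide +kernel,
    by decide +kernel, by decide +kernel, by decide +kernel⟩

theorem d_5_4 : okC 1000000000000000009
    100000000000000000000000000000000000000000000000000000000000000000000000000000129 9 1 0 5 4
    []
    [(1, 634), (2, 271), (3, 52), (4, 380)]
    [(1, 1)]
    [(2, 88), (3, 66), (4, 94)]
    [(1, 1), (2, 106), (3, 90), (4, 109)]
    [] :=
  ⟨by decide +kernel, by decide +kernel, by decide +kernel, by decide +kernel, by decide +kernel,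
    by decide +kernel, by decide +kernel, by decide +kernel⟩

theorem d_5_5 : okC 1000000000000000009
    100000000000000000000000000000000000000000000000000000000000000000000000000000129 9 1 0 5 5
    []
    [(1, 1149), (2, 516), (3, 246), (4, 124), (5, 1231)]
    [(1, 1)]
    [(2, 119), (3, 80), (4, 49), (5, 192)]
    [(1, 1), (2, 144), (3, 117), (4, 70), (5, 176)]
    [] :=
  ⟨by decide +kernel, by decide +kernel, by decide +kernel, by decide +kernel, by decide +kernel,
    by decide +kernel, by decide +kernel, by decide +kernel⟩

theorem d_5_6 : okC 1000000000000000009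
    100000000000000000000000000000000000000000000000000000000000000000000000000000129 9 1 0 5 6
    [(1, 676)]
    [(2, 18), (3, 334), (4, 222), (5, 556), (6, 3829)]
    [(1, 1), (2, 1)]
    [(3, 24), (4, 34), (5, 119), (6, 383)]
    [(1, 1), (2, 1), (3, 25), (4, 58), (5, 79), (6, 397)]
    [] :=
  ⟨by decide +kernel, by decide +kernel, by decide +kernel, by decide +kernel, by decide +kernel,
    by decide +kernel, by decide +kernel, by decide +kernel⟩

theorem d_5_7 : okC 1000000000000000009
    100000000000000000000000000000000000000000000000000000000000000000000000000000129 9 1 0 5 7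
    [(1, 1), (2, 113)]
    [(3, 452), (4, 226), (5, 376), (6, 2822)]
    [(1, 1), (2, 21), (5, 9), (7, 846)]
    [(3, 30), (4, 38), (6, 470)]
    [(1, 1), (2, 1), (3, 21), (4, 59), (5, 54), (6, 68), (7, 1411)]
    [] :=
  ⟨by decide +kernel, by decide +kernel, by decide +kernel, by decide +kernel, by decide +kernel,
    by decide +kernel, by decide +kernel, by decide +kernel⟩

theorem d_5_8 : okC 1000000000000000009
    100000000000000000000000000000000000000000000000000000000000000000000000000000129 9 1 0 5 8
    []
    [(1, 967), (2, 559), (3, 558), (4, 241), (5, 301), (6, 1507)]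
    [(1, 1)]
    [(2, 31), (3, 59), (4, 35), (5, 20), (6, 54), (7, 644)]
    [(1, 1), (2, 70), (3, 59), (4, 69), (5, 43), (6, 45), (7, 124), (8, 3982)]
    [] :=
  ⟨by decide +kernel, by decide +kernel, by decide +kernel, by decide +kernel, by decide +kernel,
    by decide +kernel, by decide +kernel, by decide +kernel⟩

theorem d_5_9 : okC 1000000000000000009
    100000000000000000000000000000000000000000000000000000000000000000000000000000129 9 1 0 5 9
    [(2, 163)]
    [(1, 329), (3, 309), (4, 264), (5, 264), (6, 989)]
    [(1, 1), (2, 16), (3, 3)]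
    [(4, 26), (5, 22), (6, 30), (7, 195)]
    [(1, 1), (2, 21), (4, 24), (5, 37), (6, 38), (7, 63), (8, 799)]
    [(3, 7)] :=
  ⟨by decide +kernel, by decide +kernel, by decide +kernel, by decide +kernel, by decide +kernel,
    by decide +kernel, by decide +kernel, by decide +kernel⟩

theorem d_5_10 : okC 1000000000000000009
    100000000000000000000000000000000000000000000000000000000000000000000000000000129 9 1 0 5 10
    [(2, 123)]
    [(1, 235), (3, 308), (4, 291), (5, 243), (6, 728)]
    [(1, 1), (2, 5), (3, 1)]
    [(4, 21), (5, 21), (6, 19), (7, 109)]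
    [(1, 1), (2, 14), (4, 21), (5, 31), (6, 35), (7, 32), (8, 324)]
    [(3, 4)] :=
  ⟨by decide +kernel, by decide +kernel, by decide +kernel, by decide +kernel, by decide +kernel,
    by decide +kernel, by decide +kernel, by decide +kernel⟩

theorem d_5_11 : okC 1000000000000000009
    100000000000000000000000000000000000000000000000000000000000000000000000000000129 9 1 0 5 11
    [(2, 464)]
    [(1, 700), (3, 312), (4, 323), (5, 231), (6, 577)]
    [(1, 1), (2, 1), (3, 12)]
    [(4, 18), (5, 21), (6, 14), (7, 62)]
    [(1, 1), (2, 36), (4, 12), (5, 33), (6, 27), (7, 28), (8, 152)]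
    [(3, 12)] :=
  ⟨by decide +kernel, by decide +kernel, by decide +kernel, by decide +kernel, by decide +kernel,
    by decide +kernel, by decide +kernel, by decide +kernel⟩

theorem d_5_12 : okC 1000000000000000009
    100000000000000000000000000000000000000000000000000000000000000000000000000000129 9 1 0 5 12
    [(2, 80)]
    [(1, 50), (3, 19), (4, 192), (5, 224), (6, 480)]
    [(1, 1), (2, 2), (3, 3)]
    [(4, 1), (5, 12), (6, 14), (7, 42)]
    [(1, 1), (2, 3), (4, 1), (5, 10), (6, 23), (7, 24), (8, 87)]
    [] :=
  ⟨by decide +kernel, by decide +kernel, by decide +kernel, by decide +kernel, by decide +kernel,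
    by decide +kernel, by decide +kernel, by decide +kernel⟩

theorem d_5_13 : okC 1000000000000000009
    100000000000000000000000000000000000000000000000000000000000000000000000000000129 9 1 0 5 13
    [(1, 1), (2, 144), (3, 42)]
    [(4, 150), (5, 221), (6, 414)]
    [(1, 1), (2, 1), (3, 6), (4, 2)]
    [(5, 8), (6, 13), (7, 28)]
    [(1, 1), (2, 1), (3, 3), (5, 5), (6, 18), (7, 23), (8, 55)]
    [(4, 2)] :=
  ⟨by decide +kernel, by decide +kernel, by decide +kernel, by decide +kernel, by decide +kernel,
    by decide +kernel, by decide +kernel, by decide +kernel⟩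

theorem d_5_14 : okC 1000000000000000009
    100000000000000000000000000000000000000000000000000000000000000000000000000000129 9 1 0 5 14
    [(1, 240), (3, 163)]
    [(2, 53), (4, 70), (5, 220), (6, 366)]
    [(1, 1), (2, 4), (4, 8)]
    [(3, 1), (5, 4), (6, 12), (7, 22)]
    [(1, 1), (2, 1), (3, 1), (4, 2), (6, 13), (7, 22), (8, 38)]
    [(5, 2)] :=
  ⟨by decide +kernel, by decide +kernel, by decide +kernel, by decide +kernel, by decide +kernel,
    by decide +kernel, by decide +kernel, by decide +kernel⟩

theorem d_5_15 : okC 1000000000000000009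
    100000000000000000000000000000000000000000000000000000000000000000000000000000129 9 1 0 5 15
    [(1, 263), (3, 158)]
    [(2, 58), (4, 57), (5, 212), (6, 330)]
    [(1, 1), (2, 4), (4, 6)]
    [(3, 1), (5, 3), (6, 10), (7, 17)]
    [(1, 1), (2, 1), (3, 1), (4, 2), (6, 10), (7, 18), (8, 29)]
    [(5, 2)] :=
  ⟨by decide +kernel, by decide +kernel, by decide +kernel, by decide +kernel, by decide +kernel,
    by decide +kernel, by decide +kernel, by decide +kernel⟩

theorem d_5_16 : okC 1000000000000000009
    100000000000000000000000000000000000000000000000000000000000000000000000000000129 9 1 0 5 16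
    [(1, 276), (3, 148)]
    [(2, 60), (4, 50), (5, 189), (6, 302)]
    [(1, 1), (2, 3), (4, 5)]
    [(3, 1), (5, 2), (6, 8), (7, 14)]
    [(1, 1), (2, 1), (3, 1), (4, 1), (6, 8), (7, 15), (8, 24)]
    [(5, 2)] :=
  ⟨by decide +kernel, by decide +kernel, by decide +kernel, by decide +kernel, by decide +kernel,
    by decide +kernel, by decide +kernel, by decide +kernel⟩

theorem d_5_17 : okC 1000000000000000009
    100000000000000000000000000000000000000000000000000000000000000000000000000000129 9 1 0 5 17
    [(1, 670), (3, 144)]
    [(2, 95), (4, 25), (5, 167), (6, 280)]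
    [(1, 1), (2, 9), (4, 5)]
    [(3, 3), (5, 1), (6, 7), (7, 12)]
    [(1, 1), (2, 5), (4, 2), (6, 6), (7, 13), (8, 20)]
    [(3, 1), (5, 2)] :=
  ⟨by decide +kernel, by decide +kernel, by decide +kernel, by decide +kernel, by decide +kernel,
    by decide +kernel, by decide +kernel, by decide +kernel⟩

theorem d_5_18 : okC 1000000000000000009
    100000000000000000000000000000000000000000000000000000000000000000000000000000129 9 1 0 5 18
    [(3, 116), (4, 1205)]
    [(1, 744), (2, 252), (5, 1255), (6, 2623)]
    [(1, 1), (5, 43)]
    [(2, 18), (3, 3), (6, 57), (7, 101)]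
    [(1, 1), (2, 22), (3, 14), (5, 6), (7, 109), (8, 163)]
    [(4, 3), (6, 16)] :=
  ⟨by decide +kernel, by decide +kernel, by decide +kernel, by decide +kernel, by decide +kernel,
    by decide +kernel, by decide +kernel, by decide +kernel⟩

theorem d_5_19 : okC 1000000000000000009
    100000000000000000000000000000000000000000000000000000000000000000000000000000129 9 1 0 5 19
    [(2, 321), (4, 1631)]
    [(1, 3426), (3, 565), (5, 1084), (6, 2475)]
    [(1, 1), (3, 11), (5, 55)]
    [(2, 118), (4, 20), (6, 48), (7, 88)]
    [(1, 1), (2, 142), (3, 40), (5, 19), (7, 95), (8, 142)]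
    [(4, 11), (6, 35)] :=
  ⟨by decide +kernel, by decide +kernel, by decide +kernel, by decide +kernel, by decide +kernel,
    by decide +kernel, by decide +kernel, by decide +kernel⟩

theorem d_5_20 : okC 1000000000000000009
    100000000000000000000000000000000000000000000000000000000000000000000000000000129 81 1 9 5 20
    [(10, 693), (20, 854), (12, 264), (30, 9277), (13, 617), (14, 690)]
    [(11, 1098), (21, 1304), (22, 600), (6, 2351)]
    [(10, 1), (20, 227), (30, 397), (13, 12), (31, 10), (14, 19), (15, 24)]
    [(11, 6), (12, 20), (21, 56), (22, 34), (23, 8), (7, 93)]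
    [(10, 1), (11, 17), (20, 7), (12, 8), (21, 5), (13, 7), (22, 24), (31, 7), (23, 2), (32, 36), (16, 2), (8, 151)]
    [(30, 11), (40, 139), (14, 11), (15, 6), (24, 16)] :=
  ⟨by decide +kernel, by decide +kernel, by decide +kernel, by decide +kernel, by decide +kernel,
    by decide +kernel, by decide +kernel, by decide +kernel⟩

theorem d_5_21 : okC 1000000000000000009
    100000000000000000000000000000000000000000000000000000000000000000000000000000129 81 1 9 5 21
    [(10, 1286), (11, 465), (20, 4360), (30, 30377), (13, 121), (14, 1485)]
    [(12, 284), (21, 793), (22, 2560), (6, 2245)]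
    [(10, 37), (11, 3), (20, 172), (21, 27), (30, 478), (31, 103), (14, 6), (15, 45)]
    [(12, 5), (13, 5), (22, 25), (23, 45), (7, 80)]
    [(10, 5), (11, 1), (21, 17), (30, 34), (40, 15), (14, 4), (23, 5), (15, 3), (24, 15), (8, 143)]
    [(22, 10), (31, 8), (32, 3), (16, 37)] :=
  ⟨by decide +kernel, by decide +kernel, by decide +kernel, by decide +kernel, by decide +kernel,
    by decide +kernel, by decide +kernel, by decide +kernel⟩

end Pool.Agent.H28.GR
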