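import Pool.Agent.H28.GR.Fin

/-!
# Certificates, checked by the kernel
-/

set_option autoImplicit false
set_option maxRecDepth 100000

namespace Pool.Agent.H28.GR

theorem d_6_21 : okC 1000000000000000009
    100000000000000000000000000000000000000000000000000000000000000000000000000000129 10 1 0 6 21
    [(2, 154), (4, 222)]
    [(1, 894), (3, 137), (5, 81), (6, 222), (7, 320)]
    [(1, 1), (3, 8), (5, 7)]
    [(2, 37), (4, 4), (6, 3), (7, 7), (8, 10)]
    [(1, 1), (2, 44), (3, 8), (5, 4), (7, 8), (8, 11), (9, 17)]
    [(4, 2), (6, 4)] :=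
  ⟨by decide +kernel, by decide +kernel, by decide +kernel, by decide +kernel, by decide +kernel,
    by decide +kernel, by decide +kernel, by decide +kernel⟩

theorem d_6_22 : okC 1000000000000000009
    100000000000000000000000000000000000000000000000000000000000000000000000000000129 10 1 0 6 22
    [(2, 151), (4, 211)]
    [(1, 821), (3, 130), (5, 76), (6, 207), (7, 301)]
    [(1, 1), (3, 7), (5, 6)]
    [(2, 32), (4, 3), (6, 2), (7, 6), (8, 9)]
    [(1, 1), (2, 38), (3, 7), (5, 3), (7, 7), (8, 10), (9, 15)]
    [(4, 2), (6, 3)] :=
  ⟨by decide +kernel, by decide +kernel, by decide +kernel, by decide +kernel, by decide +kernel,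
    by decide +kernel, by decide +kernel, by decide +kernel⟩

theorem d_6_23 : okC 1000000000000000009
    100000000000000000000000000000000000000000000000000000000000000000000000000000129 10 1 0 6 23
    [(2, 132), (4, 180)]
    [(1, 624), (3, 108), (5, 47), (6, 183), (7, 285)]
    [(1, 1), (3, 5), (5, 5)]
    [(2, 24), (4, 2), (6, 1), (7, 5), (8, 8)]
    [(1, 1), (2, 29), (3, 5), (5, 2), (7, 5), (8, 9), (9, 13)]
    [(4, 1), (6, 2)] :=
  ⟨by decide +kernel, by decide +kernel, by decide +kernel, by decide +kernel, by decide +kernel,
    by decide +kernel, by decide +kernel, by decide +kernel⟩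

theorem d_6_24 : okC 1000000000000000009
    100000000000000000000000000000000000000000000000000000000000000000000000000000129 10 1 0 6 24
    [(1, 1), (2, 20911), (4, 1450), (5, 390)]
    [(3, 2537), (6, 1652), (7, 2710)]
    [(1, 1), (2, 1), (3, 275), (5, 38), (6, 9)]
    [(4, 70), (7, 49), (8, 73)]
    [(1, 1), (2, 1), (3, 454), (5, 44), (7, 16), (8, 80), (9, 111)]
    [(4, 81), (6, 24)] :=
  ⟨by decide +kernel, by decide +kernel, by decide +kernel, by decide +kernel, by decide +kernel,
    by decide +kernel, by decide +kernel, by decide +kernel⟩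

theorem d_6_25 : okC 1000000000000000009
    100000000000000000000000000000000000000000000000000000000000000000000000000000129 10 1 0 6 25
    [(2, 1973), (4, 60), (5, 1355)]
    [(1, 203), (3, 225), (6, 1358), (7, 2590)]
    [(1, 1), (3, 9), (6, 34)]
    [(2, 3), (4, 1), (5, 1), (7, 41), (8, 66)]
    [(1, 1), (2, 5), (4, 1), (6, 6), (8, 72), (9, 100)]
    [(5, 1), (7, 17)] :=
  ⟨by decide +kernel, by decide +kernel, by decide +kernel, by decide +kernel, by decide +kernel,
    by decide +kernel, by decide +kernel, by decide +kernel⟩

theorem d_6_26 : okC 1000000000000000009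
    100000000000000000000000000000000000000000000000000000000000000000000000000000129 10 1 0 6 26
    [(3, 4926), (5, 17850)]
    [(1, 63102), (2, 43058), (4, 6984), (6, 12258), (7, 24856)]
    [(1, 1), (4, 165), (6, 426)]
    [(2, 1081), (3, 358), (5, 189), (7, 374), (8, 597)]
    [(1, 1), (2, 1263), (3, 1109), (4, 175), (6, 184), (8, 654), (9, 904)]
    [(5, 119), (7, 307)] :=
  ⟨by decide +kernel, by decide +kernel, by decide +kernel, by decide +kernel, by decide +kernel,
    by decide +kernel, by decide +kernel, by decide +kernel⟩

theorem d_6_27 : okC 1000000000000000009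
    100000000000000000000000000000000000000000000000000000000000000000000000000000129 100 1 10 6 27
    [(11, 6007), (22, 13676), (33, 50127), (14, 184), (15, 1544), (25, 292), (16, 574)]
    [(12, 829), (13, 1294), (23, 984), (24, 3976), (34, 3044), (7, 2393)]
    [(11, 437), (12, 13), (22, 213), (23, 55), (34, 651), (44, 2047), (15, 3), (16, 41), (26, 26), (17, 10)]
    [(13, 27), (33, 294), (14, 18), (24, 2), (25, 93), (35, 159), (8, 63)]
    [(11, 122), (22, 153), (23, 38), (14, 12), (24, 1), (34, 40), (44, 727), (15, 11), (25, 10), (26, 38), (36, 70), (18, 7), (9, 96)]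
    [(12, 29), (13, 9), (33, 125), (35, 103), (45, 145), (16, 6), (17, 31), (27, 30)] :=
  ⟨by decide +kernel, by decide +kernel, by decide +kernel, by decide +kernel, by decide +kernel,
    by decide +kernel, by decide +kernel, by decide +kernel⟩

theorem d_6_28 : okC 1000000000000000009
    100000000000000000000000000000000000000000000000000000000000000000000000000000129 100 1 10 6 28
    [(11, 1645), (22, 19878), (23, 1257), (33, 72624), (15, 1471), (16, 911)]
    [(12, 318), (13, 1097), (14, 112), (24, 5260), (34, 4317), (25, 1), (7, 2312)]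
    [(11, 1), (12, 74), (22, 1255), (23, 90), (24, 66), (34, 1006), (44, 2909), (16, 41), (26, 25), (17, 17)]
    [(13, 34), (33, 1404), (14, 14), (15, 9), (25, 128), (35, 219), (8, 59)]
    [(11, 1), (12, 58), (22, 83), (23, 13), (14, 8), (34, 167), (44, 1304), (15, 9), (16, 3), (26, 62), (36, 106), (9, 90)]
    [(13, 10), (33, 60), (24, 10), (25, 16), (35, 194), (45, 232), (17, 33), (27, 33), (18, 3)] :=
  ⟨by decide +kernel, by decide +kernel, by decide +kernel, by decide +kernel, by decide +kernel,
    by decide +kernel, by decide +kernel, by decide +kernel⟩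

end Pool.Agent.H28.GR
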