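import Pool.Agent.H28.GR.Fin

/-!
# Certificates, checked by the kernel
-/

set_option autoImplicit false
set_option maxRecDepth 100000

namespace Pool.Agent.H28.GR

theorem d_7_28 : okC 1000000000000000009
    100000000000000000000000000000000000000000000000000000000000000000000000000000129 11 1 0 7 28
    [(2, 4064), (5, 1759)]
    [(1, 1689), (3, 117), (4, 269), (6, 941), (7, 2342), (8, 3123)]
    [(1, 1), (2, 43), (4, 6), (6, 33)]
    [(3, 6), (5, 6), (7, 23), (8, 56), (9, 70)]
    [(1, 1), (2, 32), (4, 6), (6, 10), (8, 53), (9, 78), (10, 105)]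
    [(3, 7), (5, 4), (7, 20)] :=
  ⟨by decide +kernel, by decide +kernel, by decide +kernel, by decide +kernel, by decide +kernel,
    by decide +kernel, by decide +kernel, by decide +kernel⟩

theorem d_7_29 : okC 1000000000000000009
    100000000000000000000000000000000000000000000000000000000000000000000000000000129 11 1 0 7 29
    [(1, 4270), (3, 725), (5, 315)]
    [(2, 2128), (4, 308), (6, 108), (7, 228), (8, 299)]
    [(1, 1), (2, 59), (4, 16), (6, 7)]
    [(3, 49), (5, 7), (7, 2), (8, 5), (9, 6)]
    [(1, 1), (2, 1), (3, 28), (4, 16), (6, 6), (8, 7), (9, 7), (10, 10)]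
    [(5, 6), (7, 5)] :=
  ⟨by decide +kernel, by decide +kernel, by decide +kernel, by decide +kernel, by decide +kernel,
    by decide +kernel, by decide +kernel, by decide +kernel⟩

theorem d_7_30 : okC 1000000000000000009
    100000000000000000000000000000000000000000000000000000000000000000000000000000129 11 1 0 7 30
    [(1, 34813), (3, 5565), (5, 2571)]
    [(2, 15156), (4, 2391), (6, 631), (7, 2142), (8, 2867)]
    [(1, 1), (2, 402), (4, 99), (6, 51)]
    [(3, 327), (5, 53), (7, 16), (8, 47), (9, 58)]
    [(1, 1), (2, 1), (3, 175), (4, 113), (6, 39), (8, 43), (9, 65), (10, 87)]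
    [(5, 45), (7, 39)] :=
  ⟨by decide +kernel, by decide +kernel, by decide +kernel, by decide +kernel, by decide +kernel,
    by decide +kernel, by decide +kernel, by decide +kernel⟩

theorem d_7_31 : okC 1000000000000000009
    100000000000000000000000000000000000000000000000000000000000000000000000000000129 11 1 0 7 31
    [(1, 31079), (3, 4678), (5, 2218)]
    [(2, 11777), (4, 2008), (6, 390), (7, 1987), (8, 2760)]
    [(1, 1), (2, 305), (4, 68), (6, 43)]
    [(3, 237), (5, 42), (7, 10), (8, 42), (9, 54)]
    [(1, 1), (2, 1), (3, 122), (4, 88), (6, 31), (8, 33), (9, 60), (10, 80)]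
    [(5, 36), (7, 31)] :=
  ⟨by decide +kernel, by decide +kernel, by decide +kernel, by decide +kernel, by decide +kernel,
    by decide +kernel, by decide +kernel, by decide +kernel⟩

theorem d_7_32 : okC 1000000000000000009
    100000000000000000000000000000000000000000000000000000000000000000000000000000129 11 1 0 7 32
    [(1, 201267), (3, 13947), (5, 1631), (6, 748)]
    [(2, 7420), (4, 3695), (7, 1659), (8, 2664)]
    [(1, 1), (2, 1099), (4, 269), (6, 34), (7, 14)]
    [(3, 344), (5, 76), (8, 36), (9, 51)]
    [(1, 1), (2, 1372), (4, 288), (6, 52), (8, 3), (9, 55), (10, 74)]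
    [(3, 399), (5, 82), (7, 24)] :=
  ⟨by decide +kernel, by decide +kernel, by decide +kernel, by decide +kernel, by decide +kernel,
    by decide +kernel, by decide +kernel, by decide +kernel⟩

end Pool.Agent.H28.GR
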