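import Pool.Agent.H28.GR.Fin

/-!
# Certificates, checked by the kernel
-/

set_option autoImplicit false
set_option maxRecDepth 100000

namespace Pool.Agent.H28.GR

theorem d_7_33 : okC 1000000000000000009
    100000000000000000000000000000000000000000000000000000000000000000000000000000129 11 1 0 7 33
    [(1, 1892987), (3, 125679), (5, 14402), (6, 8050)]
    [(2, 65486), (4, 32628), (7, 16113), (8, 25772)]
    [(1, 1), (2, 9699), (4, 2307), (6, 274), (7, 140)]
    [(3, 3015), (5, 643), (8, 340), (9, 476)]
    [(1, 1), (2, 12671), (4, 2661), (6, 437), (8, 5), (9, 515), (10, 681)]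
    [(3, 3695), (5, 723), (7, 203)] :=
  ⟨by decide +kernel, by decide +kernel, by decide +kernel, by decide +kernel, by decide +kernel,
    by decide +kernel, by decide +kernel, by decide +kernel⟩

theorem d_7_34 : okC 1000000000000000009
    100000000000000000000000000000000000000000000000000000000000000000000000000000129 121 1 11 7 34
    [(12, 13547), (24, 96117), (25, 2295), (36, 112600), (37, 24057), (48, 312473), (16, 1111), (17, 3077), (28, 4480)]
    [(13, 344), (14, 2172), (15, 2313), (26, 5425), (27, 5517), (38, 20881), (18, 946), (8, 2499)]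
    [(12, 1095), (13, 169), (14, 28), (25, 808), (36, 4034), (37, 418), (38, 424), (49, 6061), (17, 25), (18, 62), (29, 118)]
    [(24, 1412), (15, 43), (26, 5), (48, 11881), (16, 38), (27, 77), (28, 99), (39, 511), (19, 32), (9, 44)]
    [(12, 1), (13, 237), (24, 1163), (25, 172), (36, 2319), (48, 4225), (16, 12), (27, 6), (49, 59), (60, 13380), (17, 24), (28, 49), (29, 41), (40, 182), (20, 48), (10, 64)]
    [(14, 24), (15, 4), (26, 136), (37, 71), (38, 175), (39, 50), (50, 753), (18, 22), (19, 49), (30, 85)] :=
  ⟨by decide +kernel, by decide +kernel, by decide +kernel, by decide +kernel, by decide +kernel,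
    by decide +kernel, by decide +kernel, by decide +kernel⟩

theorem d_7_35 : okC 1000000000000000009
    100000000000000000000000000000000000000000000000000000000000000000000000000000129 121 1 11 7 35
    [(24, 46452), (25, 820), (36, 16080), (37, 20302), (48, 91893), (16, 222), (17, 1563), (28, 761), (18, 535)]
    [(12, 2231), (13, 638), (14, 1701), (15, 320), (26, 1315), (27, 3269), (38, 5801), (8, 2427)]
    [(12, 335), (13, 99), (25, 346), (26, 27), (37, 263), (38, 251), (49, 1682), (17, 5), (18, 30), (29, 28), (19, 6)]
    [(24, 606), (14, 3), (36, 464), (15, 24), (48, 4699), (16, 8), (27, 24), (28, 57), (39, 156), (9, 46)]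
    [(12, 1), (13, 257), (24, 493), (25, 113), (36, 1286), (48, 1642), (16, 12), (27, 1), (49, 176), (60, 5542), (17, 3), (28, 15), (29, 24), (40, 76), (20, 5), (10, 68)]
    [(14, 14), (26, 65), (37, 25), (38, 56), (39, 45), (50, 332), (18, 5), (19, 23), (30, 28)] :=
  ⟨by decide +kernel, by decide +kernel, by decide +kernel, by decide +kernel, by decide +kernel,
    by decide +kernel, by decide +kernel, by decide +kernel⟩

theorem d_7_36 : okC 1000000000000000009
    100000000000000000000000000000000000000000000000000000000000000000000000000000129 121 1 11 7 36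
    [(13, 20380), (24, 187438), (25, 35016), (26, 11955), (37, 362027), (48, 1070182), (17, 15504), (28, 1825), (18, 10130)]
    [(12, 69673), (14, 12193), (36, 223744), (15, 5353), (16, 1740), (27, 47801), (38, 60985), (8, 23624)]
    [(12, 1), (13, 213), (24, 1624), (14, 195), (25, 735), (26, 615), (37, 1356), (27, 187), (38, 4664), (49, 17388), (18, 314), (29, 212), (19, 144)]
    [(36, 129), (15, 125), (48, 68297), (16, 114), (17, 40), (28, 900), (39, 1760), (9, 451)]
    [(12, 1), (13, 1460), (24, 10178), (36, 13029), (37, 339), (48, 21941), (16, 71), (49, 6211), (60, 73039), (17, 62), (18, 5), (29, 463), (40, 1039), (10, 645)]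
    [(14, 132), (25, 571), (15, 35), (26, 28), (27, 128), (38, 38), (28, 26), (39, 1265), (50, 4870), (19, 264), (30, 277), (20, 56)] :=
  ⟨by decide +kernel, by decide +kernel, by decide +kernel, by decide +kernel, by decide +kernel,
    by decide +kernel, by decide +kernel, by decide +kernel⟩

end Pool.Agent.H28.GR
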