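import Pool.Agent.H28.GR.Fin

/-!
# Certificates, checked by the kernel
-/

set_option autoImplicit false
set_option maxRecDepth 100000

namespace Pool.Agent.H28.GR

theorem d_8_40 : okC 1000000000000000009
    10000000000000000000000000000000000000000000000000000000000000000000000000000000000000000000000000267 12 1 0 8 40
    [(1, 1), (2, 106597), (4, 4009), (6, 2280)]
    [(3, 11868), (5, 2390), (7, 218), (8, 1698), (9, 2712)]
    [(1, 1), (2, 1), (3, 856), (5, 65), (7, 35)]
    [(4, 198), (6, 39), (8, 6), (9, 26), (10, 41)]
    [(1, 1), (2, 1), (3, 286), (5, 92), (7, 30), (9, 18), (10, 39), (11, 57)]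
    [(4, 102), (6, 39), (8, 25)] :=
  ⟨by decide +kernel, by decide +kernel, by decide +kernel, by decide +kernel, by decide +kernel,
    by decide +kernel, by decide +kernel, by decide +kernel⟩

theorem d_9_50 : okC 1000000000000000009
    10000000000000000000000000000000000000000000000000000000000000000000000000000000000000000000000000267 13 1 0 9 50
    [(1, 802033), (3, 163473), (5, 6059), (7, 2560)]
    [(2, 294425), (4, 23208), (6, 3337), (8, 127), (9, 1673), (10, 2683)]
    [(1, 1), (2, 5076), (4, 1301), (6, 101), (8, 32)]
    [(3, 3623), (5, 284), (7, 44), (9, 3), (10, 20), (11, 31)]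
    [(1, 1), (2, 1), (3, 2086), (4, 353), (6, 133), (8, 34), (10, 13), (11, 29), (12, 43)]
    [(5, 177), (7, 52), (9, 24)] :=
  ⟨by decide +kernel, by decide +kernel, by decide +kernel, by decide +kernel, by decide +kernel,
    by decide +kernel, by decide +kernel, by decide +kernel⟩

end Pool.Agent.H28.GR
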