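import Pool.Agent.H28.GR.Fin

/-!
# Certificates, checked by the kernel
-/

set_option autoImplicit false
set_option maxRecDepth 100000

namespace Pool.Agent.H28.GR

theorem d_8_45 : okC 1000000000000000009
    10000000000000000000000000000000000000000000000000000000000000000000000000000000000000000000000000267 144 1 12 8 45
    [(13, 238634), (14, 58135), (26, 2861789), (27, 38070), (28, 45776), (40, 267752), (41, 102709), (53, 238082), (18, 726), (19, 10301), (20, 15342)]
    [(15, 27492), (39, 1599960), (16, 2738), (52, 2131531), (17, 6756), (29, 12961), (30, 24959), (42, 5904), (31, 11147), (9, 24021)]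
    [(14, 962), (26, 6041), (39, 41921), (16, 103), (28, 1122), (29, 450), (41, 3388), (42, 864), (54, 6232), (19, 27), (20, 148), (21, 211)]
    [(13, 359), (15, 113), (27, 4087), (40, 4664), (52, 38569), (17, 79), (53, 7212), (65, 158673), (18, 89), (30, 248), (31, 300), (43, 433), (32, 86), (10, 365)]
    [(13, 1813), (14, 104), (26, 6862), (27, 1273), (28, 706), (40, 7490), (17, 2), (41, 1757), (53, 21563), (65, 47177), (18, 22), (66, 31530), (19, 73), (31, 207), (32, 139), (44, 446), (11, 503)]
    [(15, 75), (39, 3625), (16, 55), (52, 9848), (29, 178), (30, 248), (42, 1586), (54, 1460), (43, 12), (55, 2703), (20, 36), (21, 120), (33, 36), (22, 159)] :=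
  ⟨by decide +kernel, by decide +kernel, by decide +kernel, by decide +kernel, by decide +kernel,
    by decide +kernel, by decide +kernel, by decide +kernel⟩

end Pool.Agent.H28.GR
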