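import Pool.Agent.H28.GR.Fin

/-!
# Certificates, checked by the kernel
-/

set_option autoImplicit false
set_option maxRecDepth 100000

namespace Pool.Agent.H28.GR

theorem d_10_60 : okC 1000000000000000009
    10000000000000000000000000000000000000000000000000000000000000000000000000000000000000000000000000267 14 1 0 10 60
    [(2, 1186349), (4, 63346), (6, 6474), (8, 3003)]
    [(1, 536084), (3, 198059), (5, 16317), (7, 4127), (9, 74), (10, 2068), (11, 2713)]
    [(1, 1), (2, 85009), (5, 368), (7, 76), (9, 32)]
    [(3, 1027), (4, 204), (6, 161), (8, 44), (10, 3), (11, 20), (12, 25)]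
    [(1, 1), (2, 4544), (4, 546), (5, 184), (7, 86), (9, 36), (11, 11), (12, 28), (13, 34)]
    [(3, 1032), (6, 106), (8, 45), (10, 25)] :=
  ⟨by decide +kernel, by decide +kernel, by decide +kernel, by decide +kernel, by decide +kernel,
    by decide +kernel, by decide +kernel, by decide +kernel⟩

end Pool.Agent.H28.GR
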