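import Pool.Agent.H28.GR.Defs
import Pool.Agent.H2.GC.IF

/-!
# The two inequalities from the certificate with constant weights
-/

set_option autoImplicit false
set_option linter.unusedSectionVars false

open Finset Pool.Agent.H23.GW Pool.Agent.H23.GC Pool.Agent.H23.GF
open scoped Classical Nat

namespace Pool.Agent.H28.GR

noncomputable section

variable {ι : Type} [Fintype ι]

theorem sv_update_zero (a : ι → ℕ) (n : ℕ) (i : ι) :
    ({u ∈ sv a n | u i = 0} : Finset (ι → ℕ)) = sv (Function.update a i 0) n := by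
  ext u
  rw [mem_filter, mem_sv, mem_sv]
  constructor
  · rintro ⟨⟨h1, h2⟩, h3⟩
    refine ⟨fun j => ?_, h2⟩
    by_cases hj : j = i
    · subst hj
      rw [Function.update_self, h3]
    · rw [Function.update_of_ne hj]
      exact h1 j
  · rintro ⟨h1, h2⟩
    have h3 := h1 i
    rw [Function.update_self] at h3
    refine ⟨⟨fun j => ?_, h2⟩, by omega⟩
    by_cases hj : j = i
    · subst hj
      omega
    · have := h1 j
      rwa [Function.update_of_ne hj] at this

theorem card_sv_eq (a : ι → ℕ) (n k : ℕ) (i : ι) (hk : k ≤ a i) (hkn : k ≤ n) :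
    #{u ∈ sv a n | u i = k} = #(sv (Function.update a i 0) (n - k)) := by
  refine card_bij' (fun u _ => Function.update u i 0) (fun u _ => Function.update u i k) ?_ ?_ ?_ ?_
  · intro u hu
    rw [mem_filter, mem_sv] at hu
    obtain ⟨⟨h1, h2⟩, h3⟩ := hu
    rw [mem_sv]
    refine ⟨fun j => ?_, ?_⟩
    · by_cases hj : j = i
      · subst hj
        rw [Function.update_self, Function.update_self]
      · rw [Function.update_of_ne hj, Function.update_of_ne hj]
        exact h1 j
    · rw [Finset.sum_update_of_mem (mem_univ i), Finset.sdiff_singleton_eq_erase, zero_add]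
      have := Finset.add_sum_erase univ u (mem_univ i)
      omega
  · intro u hu
    rw [mem_sv] at hu
    obtain ⟨h1, h2⟩ := hu
    have h3 := h1 i
    rw [Function.update_self] at h3
    rw [mem_filter, mem_sv]
    refine ⟨⟨fun j => ?_, ?_⟩, Function.update_self _ _ _⟩
    · by_cases hj : j = i
      · subst hj
        rw [Function.update_self]
        exact hk
      · have := h1 j
        rw [Function.update_of_ne hj] at this ⊢
        exact this
    · rw [Finset.sum_update_of_mem (mem_univ i), Finset.sdiff_singleton_eq_erase]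
      have := Finset.add_sum_erase univ u (mem_univ i)
      omega
  · intro u hu
    rw [mem_filter] at hu
    funext j
    by_cases hj : j = i
    · subst hj
      simp [hu.2]
    · simp [Function.update_of_ne hj]
  · intro u hu
    rw [mem_sv] at hu
    have h3 := hu.1 i
    rw [Function.update_self] at h3
    funext j
    by_cases hj : j = i
    · subst hj
      simp only [Function.update_self]
      omega
    · simp [Function.update_of_ne hj]

theorem sum_update_zero (a : ι → ℕ) (i : ι) : ∑ j, Function.update a i 0 j + a i = ∑ j, a j := by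
  rw [Finset.sum_update_of_mem (mem_univ i), Finset.sdiff_singleton_eq_erase]
  have := Finset.add_sum_erase univ a (mem_univ i)
  omega

theorem sv_empty (a : ι → ℕ) (n : ℕ) (h : ∑ j, a j < n) : sv a n = ∅ := by
  rw [Finset.eq_empty_iff_forall_notMem]
  intro u hu
  rw [mem_sv] at hu
  have := Finset.sum_le_sum (s := univ) fun i _ => hu.1 i
  omega

/-- the ratios at the level `2 s + 1` -/
theorem ratio1 (hW : T_W) {s : ℕ} (hs : 2 ≤ s) {a : ι → ℕ} (ha : ∑ i, a i = 2 * s + 1) :
    (s : ℝ) * #(sv a (s + 1)) ≤ (s + 2) * #(sv a (s + 2)) ∧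
    ((s : ℝ) - 1) * #(sv a (s + 2)) ≤ (s + 3) * #(sv a (s + 3)) := by
  obtain ⟨h1, -, -, h2⟩ := hW ι a
  rw [ha] at h1 h2
  have e1 := h1 (s + 1) s (by omega)
  have e2 := h1 (s + 2) (s - 1) (by omega)
  have e3 := h1 (s + 3) (s - 2) (by omega)
  have k1 := h2 (s - 1) (by omega)
  have k2 := h2 (s - 2) (by omega)
  rw [show s - 1 + 1 = s by omega, show 2 * s + 1 - (s - 1) = s + 2 by omega] at k1
  rw [show s - 2 + 1 = s - 1 by omega, show 2 * s + 1 - (s - 2) = s + 3 by omega] at k2
  rw [← e1, ← e2] at k1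
  rw [← e2, ← e3] at k2
  constructor
  · exact_mod_cast k1
  · have : ((s : ℝ) - 1) = ((s - 1 : ℕ) : ℝ) := by
      rw [Nat.cast_sub (by omega)]
      simp
    rw [this]
    exact_mod_cast k2

theorem ratio2 (hW : T_W) {s : ℕ} (hs : 2 ≤ s) {a : ι → ℕ} (ha : ∑ i, a i = 2 * s + 2) :
    (s : ℝ) * #(sv a (s + 2)) ≤ (s + 3) * #(sv a (s + 3)) := by
  obtain ⟨h1, -, -, h2⟩ := hW ι a
  rw [ha] at h1 h2
  have e1 := h1 (s + 2) s (by omega)
  have e2 := h1 (s + 3) (s - 1) (by omega)
  have k1 := h2 (s - 1) (by omega)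
  rw [show s - 1 + 1 = s by omega, show 2 * s + 2 - (s - 1) = s + 3 by omega] at k1
  rw [← e1, ← e2] at k1
  exact_mod_cast k1

theorem nb_one (s : ℕ) (a : ι → ℕ) : NB s a (fun _ => 1) = #(sv a (s + 3)) +
    ∑ i, ((#{u ∈ sv a (s + 2) | u i = 0} : ℝ) + #{u ∈ sv a (s + 2) | u i = a i}) := by
  unfold NB
  rw [sum_comm]
  congr 1
  · simp
  · refine sum_congr rfl fun i _ => ?_
    simp only [mul_one]
    rw [sum_add_distrib]
    simp

theorem step_zero (hW : T_W) {s : ℕ} (hs : 2 ≤ s) {a : ι → ℕ} (ha : ∑ i, a i = 2 * s + 1)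
    (i : ι) : (#{u ∈ sv a (s + 1) | u i = 0} : ℝ) ≤
      #{u ∈ sv a (s + 2) | u i = 0} + #{u ∈ sv a (s + 2) | u i = a i} := by
  by_cases hi : a i = 0
  · have e : ∀ n, ({u ∈ sv a n | u i = 0} : Finset (ι → ℕ)) = sv a n := by
      intro n
      rw [filter_eq_self]
      intro u hu
      have := (mem_sv.1 hu).1 i
      omega
    rw [hi, e, e]
    obtain ⟨h1, -⟩ := ratio1 hW hs ha
    have hs' : (2 : ℝ) ≤ s := by exact_mod_cast hs
    have h2 : (0 : ℝ) ≤ #(sv a (s + 2)) := Nat.cast_nonneg _
    have h3 : (s : ℝ) * #(sv a (s + 1)) ≤ s * (#(sv a (s + 2)) + #(sv a (s + 2))) := by nlinarith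
    exact le_of_mul_le_mul_left h3 (by linarith)
  · have h1 := sum_update_zero a i
    have h2 : #{u ∈ sv a (s + 1) | u i = 0} ≤ #{u ∈ sv a (s + 2) | u i = a i} := by
      rw [sv_update_zero]
      by_cases h : a i ≤ s
      · rw [card_sv_eq a (s + 2) (a i) i le_rfl (by omega)]
        exact (hW ι (Function.update a i 0)).2.2.1 _ _ (by omega) (by omega)
      · rw [sv_empty _ _ (by omega)]
        simp
    have h3 : (#{u ∈ sv a (s + 1) | u i = 0} : ℝ) ≤ #{u ∈ sv a (s + 2) | u i = a i} := by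
      exact_mod_cast h2
    have h4 : (0 : ℝ) ≤ #{u ∈ sv a (s + 2) | u i = 0} := Nat.cast_nonneg _
    linarith

theorem sum_lN (a : ι → ℕ) (n : ℕ) : ∑ u ∈ sv a n, ((Fintype.card ι : ℝ) - lN u) =
    ∑ i, (#{u ∈ sv a n | u i = 0} : ℝ) := by
  simp only [card_filter]
  push_cast
  rw [sum_comm]
  refine sum_congr rfl fun u _ => ?_
  have h1 : (lN u : ℝ) + #{i | u i = 0} = Fintype.card ι := by
    unfold lN
    rw [← Finset.card_univ, add_comm, ← Nat.cast_add, card_filter_add_card_filter_not]
  rw [← h1, card_filter]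
  push_cast
  ring

theorem cast_V (hV : T_VC) (n : ℕ) :
    ∑ u ∈ nv ι n, (2 : ℝ) ^ lN u = V (Fintype.card ι) n := by
  have := sum_Vn (ι := ι) n (fun _ => 1)
  simp only [mul_one] at this
  rw [← this, sum_const, nsmul_eq_mul, mul_one, hV]

theorem cast_E (hV : T_VC) (s : ℕ) :
    ∑ u ∈ nv ι (s + 1), (2 : ℝ) ^ lN u * lN u =
      (s + 1) * V (Fintype.card ι) (s + 1) - s * V (Fintype.card ι) s := by
  rw [← sum_Vn (s + 1) (fun u => (lN u : ℝ))]
  have h1 := Pool.Agent.H2.GC.f ι s
  rw [hV, hV] at h1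
  have h2 : ∑ c ∈ Vn ι (s + 1), (lN (ab c) : ℝ) = ((∑ c ∈ Vn ι (s + 1), ell c : ℕ) : ℝ) := by
    push_cast
    exact sum_congr rfl fun c _ => by rw [ell_eq]
  rw [h2]
  have h3 : ((∑ c ∈ Vn ι (s + 1), ell c : ℕ) : ℝ) + s * V (Fintype.card ι) s =
      (s + 1) * V (Fintype.card ι) (s + 1) := by exact_mod_cast h1
  linarith

theorem ra (hV : T_VC) (hW : T_W) (hZ : T_CZ) : T_RA := by
  intro ι _ G _ s ev hs h0
  set A : ℝ := (s : ℝ) * (s - 1) / ((s + 2) * (s + 3)) with hA
  have hs' : (2 : ℝ) ≤ s := by exact_mod_cast hs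
  have key := hZ ι G s ev h0 (fun u => -(A + (Fintype.card ι - lN u))) (fun _ => 0) (fun _ => 1)
    ?_ ?_ ?_
  · have e1 : ∑ u ∈ nv ι (s + 1), (2 : ℝ) ^ lN u * -(A + (Fintype.card ι - lN u)) =
        -(A + Fintype.card ι) * ∑ u ∈ nv ι (s + 1), (2 : ℝ) ^ lN u +
        ∑ u ∈ nv ι (s + 1), (2 : ℝ) ^ lN u * lN u := by
      rw [mul_sum, ← sum_add_distrib]
      exact sum_congr rfl fun u _ => by ring
    rw [e1] at key
    simp only [mul_one, mul_zero, sum_const_zero, add_zero] at key
    rw [cast_V hV, cast_E hV, cast_V hV] at key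
    linarith
  · intro a ha
    rw [nb_one]
    obtain ⟨h1, h2⟩ := ratio1 hW hs ha
    have h3 : A * #(sv a (s + 1)) ≤ #(sv a (s + 3)) := by
      have h4 : (s : ℝ) * (s - 1) * #(sv a (s + 1)) ≤ (s + 2) * (s + 3) * #(sv a (s + 3)) := by
        calc (s : ℝ) * (s - 1) * #(sv a (s + 1)) = (s - 1) * (s * #(sv a (s + 1))) := by ring
          _ ≤ (s - 1) * ((s + 2) * #(sv a (s + 2))) := by
            refine mul_le_mul_of_nonneg_left h1 (by linarith)
          _ = (s + 2) * ((s - 1) * #(sv a (s + 2))) := by ring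
          _ ≤ (s + 2) * ((s + 3) * #(sv a (s + 3))) := by
            refine mul_le_mul_of_nonneg_left h2 (by linarith)
          _ = _ := by ring
      rw [hA, div_mul_eq_mul_div, div_le_iff₀ (by positivity)]
      linarith
    have h5 := sum_lN a (s + 1)
    have h6 : ∑ i, (#{u ∈ sv a (s + 1) | u i = 0} : ℝ) ≤
        ∑ i, ((#{u ∈ sv a (s + 2) | u i = 0} : ℝ) + #{u ∈ sv a (s + 2) | u i = a i}) :=
      sum_le_sum fun i _ => step_zero hW hs ha i
    have h7 : ∑ u ∈ sv a (s + 1), -(A + ((Fintype.card ι : ℝ) - lN u)) =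
        -(A * #(sv a (s + 1))) - ∑ u ∈ sv a (s + 1), ((Fintype.card ι : ℝ) - lN u) := by
      rw [sum_neg_distrib, sum_add_distrib, sum_const, nsmul_eq_mul]
      ring
    rw [h7, h5, sum_const_zero]
    linarith
  · intro a _
    simp
  · intro a _
    simp

theorem rb (hV : T_VC) (hW : T_W) (hZ : T_CZ) : T_RB := by
  intro ι _ G _ s ev hs hm h0
  have hs' : (2 : ℝ) ≤ s := by exact_mod_cast hs
  have hm' : (s : ℝ) + 1 ≤ Fintype.card ι := by exact_mod_cast hm
  set α : ℝ := (s : ℝ) / (s + 2) * (2 * Fintype.card ι - 2 * s - 1 - 1 / (s + 3)) with hα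
  have hc : (0 : ℝ) ≤ 2 * Fintype.card ι - 2 * s - 1 - 1 / (s + 3) := by
    have : (1 : ℝ) / (s + 3) ≤ 1 := by
      rw [div_le_one (by positivity)]
      linarith
    linarith
  have key := hZ ι G s ev h0 (fun u => -α) (fun _ => -((s : ℝ) / (s + 3))) (fun _ => 1)
    ?_ ?_ ?_
  · simp only [mul_one, ← sum_mul] at key
    rw [cast_V hV, cast_V hV, cast_V hV] at key
    linarith
  · intro a ha
    obtain ⟨h1, h2⟩ := ratio1 hW hs ha
    have h3 : ((2 : ℝ) * Fintype.card ι - 2 * s - 1) * #(sv a (s + 2)) ≤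
        ∑ u ∈ sv a (s + 2), ∑ i, ((if u i = 0 then (1 : ℝ) else 0) +
          (if u i = a i then 1 else 0)) * 1 := by
      rw [mul_comm, ← nsmul_eq_mul, ← sum_const]
      refine sum_le_sum fun u hu => ?_
      rw [mem_sv] at hu
      have h4 : ∀ i, (2 : ℝ) - u i - ((a i : ℝ) - u i) ≤
          ((if u i = 0 then (1 : ℝ) else 0) + (if u i = a i then 1 else 0)) * 1 := by
        intro i
        have h5 := hu.1 i
        by_cases h6 : u i = 0
        · by_cases h7 : u i = a i
          · rw [if_pos h6, if_pos h7, ← h7, h6]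
            norm_num
          · have h8 : (1 : ℝ) ≤ a i := by
              have : 1 ≤ a i := by omega
              exact_mod_cast this
            rw [if_pos h6, if_neg h7]
            linarith
        · have h9 : (1 : ℝ) ≤ u i := by
            have : 1 ≤ u i := by omega
            exact_mod_cast this
          by_cases h7 : u i = a i
          · rw [if_neg h6, if_pos h7, ← h7]
            linarith
          · have h8 : (u i : ℝ) + 1 ≤ a i := by
              have : u i + 1 ≤ a i := by omega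
              exact_mod_cast this
            rw [if_neg h6, if_neg h7]
            linarith
      have h10 := sum_le_sum (s := univ) fun i _ => h4 i
      have h11 : ∑ i, ((2 : ℝ) - u i - ((a i : ℝ) - u i)) = 2 * Fintype.card ι - 2 * s - 1 := by
        have : ∀ i, (2 : ℝ) - u i - ((a i : ℝ) - u i) = 2 - a i := fun i => by ring
        simp only [this, sum_sub_distrib, sum_const, card_univ, nsmul_eq_mul]
        have : ∑ i, (a i : ℝ) = 2 * s + 1 := by exact_mod_cast ha
        rw [this]
        ring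
      rw [h11] at h10
      exact h10
    have h4 : NB s a (fun _ => 1) = #(sv a (s + 3)) + ∑ u ∈ sv a (s + 2), ∑ i,
        ((if u i = 0 then (1 : ℝ) else 0) + (if u i = a i then 1 else 0)) * 1 := by
      unfold NB
      simp
    rw [h4, sum_const, sum_const, nsmul_eq_mul, nsmul_eq_mul]
    have h5 : α * #(sv a (s + 1)) ≤
        (2 * Fintype.card ι - 2 * s - 1 - 1 / (s + 3)) * #(sv a (s + 2)) := by
      have : (s : ℝ) / (s + 2) * #(sv a (s + 1)) ≤ #(sv a (s + 2)) := by
        rw [div_mul_eq_mul_div, div_le_iff₀ (by positivity)]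
        linarith
      calc α * #(sv a (s + 1)) = (2 * Fintype.card ι - 2 * s - 1 - 1 / (s + 3)) *
            ((s : ℝ) / (s + 2) * #(sv a (s + 1))) := by
            rw [hα]
            ring
        _ ≤ _ := mul_le_mul_of_nonneg_left this hc
    have h6 : ((s : ℝ) - 1) / (s + 3) * #(sv a (s + 2)) ≤ #(sv a (s + 3)) := by
      rw [div_mul_eq_mul_div, div_le_iff₀ (by positivity)]
      linarith
    have h7 : ((s : ℝ) - 1) / (s + 3) = s / (s + 3) - 1 / (s + 3) := by
      rw [← sub_div]
    rw [h7] at h6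
    nlinarith
  · intro a ha
    have h1 := ratio2 hW hs ha
    rw [sum_const, sum_const, nsmul_eq_mul, nsmul_eq_mul, mul_one]
    have : (s : ℝ) / (s + 3) * #(sv a (s + 2)) ≤ #(sv a (s + 3)) := by
      rw [div_mul_eq_mul_div, div_le_iff₀ (by positivity)]
      linarith
    linarith
  · intro a _
    simp

end

end Pool.Agent.H28.GR
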