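import Pool.Agent.H28.GR.CZ
import Pool.Agent.H28.GR.RAB
import Pool.Agent.H28.GR.DataA
import Pool.Agent.H28.GR.DataB
import Pool.Agent.H28.GR.DataB2
import Pool.Agent.H28.GR.DataC
import Pool.Agent.H28.GR.DataC2
import Pool.Agent.H28.GR.DataD
import Pool.Agent.H28.GR.DataD2
import Pool.Agent.H28.GR.DataE
import Pool.Agent.H28.GR.DataF
import Pool.Agent.H28.GR.DataG
import Pool.Agent.H4.GR.PB
import Pool.Agent.H4.GR.VC
import Pool.Agent.H4.GR.VX
import Pool.Agent.H4.GR.W
import Pool.Agent.H33.GR.PA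
import Pool.Agent.H33.GR.V3
import Pool.Agent.H33.GR.VL
import Pool.Agent.H75.GR.VR

/-!
# Perfect spanning sets: the region of small size
-/

set_option autoImplicit false
set_option linter.unusedSectionVars false

open Finset Pool.Agent.H23.GW Pool.Agent.H23.GC Pool.Agent.H23.GF
open scoped Classical

namespace Pool.Agent.H28.GR

variable {ι : Type} [Fintype ι] {G : Type} [AddCommGroup G]

theorem use_data {s m : ℕ} {ev : (ι → ℤ) →+ G} (h : PC s ev) (hm : Fintype.card ι = m)
    {B C E c1 c2 : ℕ} {hp hn fp fn gp gn : List (ℕ × ℕ)}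
    (hok : okC B C E c1 c2 s m hp hn fp fn gp gn) : False := by
  subst hm
  exact fin_main cz h B C E c1 c2 hp hn fp fn gp gn hok

theorem ra' : T_RA := ra Pool.Agent.H4.GR.vc Pool.Agent.H4.GR.w cz

theorem rb' : T_RB := rb Pool.Agent.H4.GR.vc Pool.Agent.H4.GR.w cz

theorem pa' : T_PA := Pool.Agent.H33.GR.PA.pa Pool.Agent.H75.GR.VR.vr
  (Pool.Agent.H33.GR.VL.vl Pool.Agent.H75.GR.VR.vr)

theorem pb' : T_PB := Pool.Agent.H4.GR.pb Pool.Agent.H75.GR.VR.vr

theorem reg_a {s : ℕ} {ev : (ι → ℤ) →+ G} (h : PC s ev) (hs : 13 ≤ s)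
    (h8 : 8 ≤ Fintype.card ι) (hm : Fintype.card ι ≤ s + 2) : False := by
  have h1 := ra' ι G s ev (by omega) h
  have h2 := pa' s (Fintype.card ι) hs h8 hm
  linarith

theorem reg_b {s : ℕ} {ev : (ι → ℤ) →+ G} (h : PC s ev)
    (hm : (12 ≤ s ∧ s + 3 ≤ Fintype.card ι ∧ 2 * Fintype.card ι + 6 ≤ s ^ 2 + 2 * s) ∨
    (s = 6 ∧ 10 ≤ Fintype.card ι ∧ Fintype.card ι ≤ 20) ∨
    (s = 7 ∧ 11 ≤ Fintype.card ι ∧ Fintype.card ι ≤ 27) ∨
    (s = 8 ∧ 12 ≤ Fintype.card ι ∧ Fintype.card ι ≤ 36) ∨
    (s = 9 ∧ 12 ≤ Fintype.card ι ∧ Fintype.card ι ≤ 46) ∨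
    (s = 10 ∧ 13 ≤ Fintype.card ι ∧ Fintype.card ι ≤ 56) ∨
    (s = 11 ∧ 14 ≤ Fintype.card ι ∧ Fintype.card ι ≤ 68)) : False := by
  have h1 := rb' ι G s ev (by omega) (by omega) h
  have h2 := pb' s (Fintype.card ι) hm
  linarith

theorem reg_3 {s : ℕ} {ev : (ι → ℤ) →+ G} (h : PC s ev) (hs : 5 ≤ s)
    (hm : Fintype.card ι = 3) : False := Pool.Agent.H33.GR.V3.v3 ι G s ev h hs hm

theorem reg_4 {s : ℕ} {ev : (ι → ℤ) →+ G} (h : PC s ev) (hs : 6 ≤ s)
    (hm : Fintype.card ι = 4) : False :=
  Pool.Agent.H4.GR.vx ι G s 3 ev h (by omega) (by omega) (by rw [hm]; omega)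

theorem reg_567 {s : ℕ} {ev : (ι → ℤ) →+ G} (h : PC s ev)
    (hm : (12 ≤ s ∧ Fintype.card ι = 5) ∨ (15 ≤ s ∧ Fintype.card ι = 6) ∨
      (18 ≤ s ∧ Fintype.card ι = 7)) : False := by
  rcases hm with ⟨h1, h2⟩ | ⟨h1, h2⟩ | ⟨h1, h2⟩
  · exact Pool.Agent.H4.GR.vx ι G s 4 ev h (by omega) (by omega) (by rw [h2]; omega)
  · exact Pool.Agent.H4.GR.vx ι G s 4 ev h (by omega) (by omega) (by rw [h2]; omega)
  · exact Pool.Agent.H4.GR.vx ι G s 4 ev h (by omega) (by omega) (by rw [h2]; omega)

theorem sm_3 {ev : (ι → ℤ) →+ G} (h : PC 3 ev)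
    (hm : Fintype.card ι = 3 ∨
      Fintype.card ι = 4 ∨
      Fintype.card ι = 5 ∨
      Fintype.card ι = 6 ∨
      Fintype.card ι = 7 ∨
      Fintype.card ι = 8 ∨
      Fintype.card ι = 9 ∨
      Fintype.card ι = 10) :
    False := by
  rcases hm with hm | hm | hm | hm | hm | hm | hm | hm
  · exact use_data h hm d_3_3
  · exact use_data h hm d_3_4
  · exact use_data h hm d_3_5
  · exact use_data h hm d_3_6
  · exact use_data h hm d_3_7
  · exact use_data h hm d_3_8
  · exact use_data h hm d_3_9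
  · exact use_data h hm d_3_10

theorem sm_4 {ev : (ι → ℤ) →+ G} (h : PC 4 ev)
    (hm : Fintype.card ι = 3 ∨
      Fintype.card ι = 4 ∨
      Fintype.card ι = 5 ∨
      Fintype.card ι = 6 ∨
      Fintype.card ι = 7 ∨
      Fintype.card ι = 8 ∨
      Fintype.card ι = 9 ∨
      Fintype.card ι = 10 ∨
      Fintype.card ι = 11 ∨
      Fintype.card ι = 12 ∨
      Fintype.card ι = 13 ∨
      Fintype.card ι = 14 ∨
      Fintype.card ι = 15) :
    False := by
  rcases hm with hm | hm | hm | hm | hm | hm | hm | hm | hm | hm | hm | hm | hm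
  · exact use_data h hm d_4_3
  · exact use_data h hm d_4_4
  · exact use_data h hm d_4_5
  · exact use_data h hm d_4_6
  · exact use_data h hm d_4_7
  · exact use_data h hm d_4_8
  · exact use_data h hm d_4_9
  · exact use_data h hm d_4_10
  · exact use_data h hm d_4_11
  · exact use_data h hm d_4_12
  · exact use_data h hm d_4_13
  · exact use_data h hm d_4_14
  · exact use_data h hm d_4_15

theorem sm_5 {ev : (ι → ℤ) →+ G} (h : PC 5 ev)
    (hm : Fintype.card ι = 4 ∨
      Fintype.card ι = 5 ∨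
      Fintype.card ι = 6 ∨
      Fintype.card ι = 7 ∨
      Fintype.card ι = 8 ∨
      Fintype.card ι = 9 ∨
      Fintype.card ι = 10 ∨
      Fintype.card ι = 11 ∨
      Fintype.card ι = 12 ∨
      Fintype.card ι = 13 ∨
      Fintype.card ι = 14 ∨
      Fintype.card ι = 15 ∨
      Fintype.card ι = 16 ∨
      Fintype.card ι = 17 ∨
      Fintype.card ι = 18 ∨
      Fintype.card ι = 19 ∨
      Fintype.card ι = 20 ∨
      Fintype.card ι = 21) :
    False := by
  rcases hm with hm | hm | hm | hm | hm | hm | hm | hm | hm | hm | hm | hm | hm | hm | hm | hm | hm | hm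
  · exact use_data h hm d_5_4
  · exact use_data h hm d_5_5
  · exact use_data h hm d_5_6
  · exact use_data h hm d_5_7
  · exact use_data h hm d_5_8
  · exact use_data h hm d_5_9
  · exact use_data h hm d_5_10
  · exact use_data h hm d_5_11
  · exact use_data h hm d_5_12
  · exact use_data h hm d_5_13
  · exact use_data h hm d_5_14
  · exact use_data h hm d_5_15
  · exact use_data h hm d_5_16
  · exact use_data h hm d_5_17
  · exact use_data h hm d_5_18
  · exact use_data h hm d_5_19
  · exact use_data h hm d_5_20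
  · exact use_data h hm d_5_21

theorem sm_6 {ev : (ι → ℤ) →+ G} (h : PC 6 ev)
    (hm : Fintype.card ι = 5 ∨
      Fintype.card ι = 6 ∨
      Fintype.card ι = 7 ∨
      Fintype.card ι = 8 ∨
      Fintype.card ι = 9 ∨
      Fintype.card ι = 21 ∨
      Fintype.card ι = 22 ∨
      Fintype.card ι = 23 ∨
      Fintype.card ι = 24 ∨
      Fintype.card ι = 25 ∨
      Fintype.card ι = 26 ∨
      Fintype.card ι = 27 ∨
      Fintype.card ι = 28) :
    False := by
  rcases hm with hm | hm | hm | hm | hm | hm | hm | hm | hm | hm | hm | hm | hm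
  · exact use_data h hm d_6_5
  · exact use_data h hm d_6_6
  · exact use_data h hm d_6_7
  · exact use_data h hm d_6_8
  · exact use_data h hm d_6_9
  · exact use_data h hm d_6_21
  · exact use_data h hm d_6_22
  · exact use_data h hm d_6_23
  · exact use_data h hm d_6_24
  · exact use_data h hm d_6_25
  · exact use_data h hm d_6_26
  · exact use_data h hm d_6_27
  · exact use_data h hm d_6_28

theorem sm_7 {ev : (ι → ℤ) →+ G} (h : PC 7 ev)
    (hm : Fintype.card ι = 5 ∨
      Fintype.card ι = 6 ∨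
      Fintype.card ι = 7 ∨
      Fintype.card ι = 8 ∨
      Fintype.card ι = 9 ∨
      Fintype.card ι = 10 ∨
      Fintype.card ι = 28 ∨
      Fintype.card ι = 29 ∨
      Fintype.card ι = 30 ∨
      Fintype.card ι = 31 ∨
      Fintype.card ι = 32 ∨
      Fintype.card ι = 33 ∨
      Fintype.card ι = 34 ∨
      Fintype.card ι = 35 ∨
      Fintype.card ι = 36) :
    False := by
  rcases hm with hm | hm | hm | hm | hm | hm | hm | hm | hm | hm | hm | hm | hm | hm | hm
  · exact use_data h hm d_7_5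
  · exact use_data h hm d_7_6
  · exact use_data h hm d_7_7
  · exact use_data h hm d_7_8
  · exact use_data h hm d_7_9
  · exact use_data h hm d_7_10
  · exact use_data h hm d_7_28
  · exact use_data h hm d_7_29
  · exact use_data h hm d_7_30
  · exact use_data h hm d_7_31
  · exact use_data h hm d_7_32
  · exact use_data h hm d_7_33
  · exact use_data h hm d_7_34
  · exact use_data h hm d_7_35
  · exact use_data h hm d_7_36

theorem sm_8 {ev : (ι → ℤ) →+ G} (h : PC 8 ev)
    (hm : Fintype.card ι = 5 ∨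
      Fintype.card ι = 6 ∨
      Fintype.card ι = 7 ∨
      Fintype.card ι = 8 ∨
      Fintype.card ι = 9 ∨
      Fintype.card ι = 10 ∨
      Fintype.card ι = 11 ∨
      Fintype.card ι = 40 ∨
      Fintype.card ι = 45) :
    False := by
  rcases hm with hm | hm | hm | hm | hm | hm | hm | hm | hm
  · exact use_data h hm d_8_5
  · exact use_data h hm d_8_6
  · exact use_data h hm d_8_7
  · exact use_data h hm d_8_8
  · exact use_data h hm d_8_9
  · exact use_data h hm d_8_10
  · exact use_data h hm d_8_11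
  · exact use_data h hm d_8_40
  · exact use_data h hm d_8_45

theorem sm_9 {ev : (ι → ℤ) →+ G} (h : PC 9 ev)
    (hm : Fintype.card ι = 5 ∨
      Fintype.card ι = 6 ∨
      Fintype.card ι = 7 ∨
      Fintype.card ι = 8 ∨
      Fintype.card ι = 9 ∨
      Fintype.card ι = 10 ∨
      Fintype.card ι = 11 ∨
      Fintype.card ι = 50) :
    False := by
  rcases hm with hm | hm | hm | hm | hm | hm | hm | hm
  · exact use_data h hm d_9_5
  · exact use_data h hm d_9_6
  · exact use_data h hm d_9_7
  · exact use_data h hm d_9_8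
  · exact use_data h hm d_9_9
  · exact use_data h hm d_9_10
  · exact use_data h hm d_9_11
  · exact use_data h hm d_9_50

theorem sm_10 {ev : (ι → ℤ) →+ G} (h : PC 10 ev)
    (hm : Fintype.card ι = 5 ∨
      Fintype.card ι = 6 ∨
      Fintype.card ι = 7 ∨
      Fintype.card ι = 8 ∨
      Fintype.card ι = 9 ∨
      Fintype.card ι = 10 ∨
      Fintype.card ι = 11 ∨
      Fintype.card ι = 12 ∨
      Fintype.card ι = 60) :
    False := by
  rcases hm with hm | hm | hm | hm | hm | hm | hm | hm | hm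
  · exact use_data h hm d_10_5
  · exact use_data h hm d_10_6
  · exact use_data h hm d_10_7
  · exact use_data h hm d_10_8
  · exact use_data h hm d_10_9
  · exact use_data h hm d_10_10
  · exact use_data h hm d_10_11
  · exact use_data h hm d_10_12
  · exact use_data h hm d_10_60

theorem sm_11 {ev : (ι → ℤ) →+ G} (h : PC 11 ev)
    (hm : Fintype.card ι = 5 ∨
      Fintype.card ι = 6 ∨
      Fintype.card ι = 7 ∨
      Fintype.card ι = 8 ∨
      Fintype.card ι = 9 ∨
      Fintype.card ι = 10 ∨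
      Fintype.card ι = 11 ∨
      Fintype.card ι = 12 ∨
      Fintype.card ι = 13) :
    False := by
  rcases hm with hm | hm | hm | hm | hm | hm | hm | hm | hm
  · exact use_data h hm d_11_5
  · exact use_data h hm d_11_6
  · exact use_data h hm d_11_7
  · exact use_data h hm d_11_8
  · exact use_data h hm d_11_9
  · exact use_data h hm d_11_10
  · exact use_data h hm d_11_11
  · exact use_data h hm d_11_12
  · exact use_data h hm d_11_13

theorem sm_12 {ev : (ι → ℤ) →+ G} (h : PC 12 ev)
    (hm : Fintype.card ι = 6 ∨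
      Fintype.card ι = 7 ∨
      Fintype.card ι = 8 ∨
      Fintype.card ι = 9 ∨
      Fintype.card ι = 10 ∨
      Fintype.card ι = 11 ∨
      Fintype.card ι = 12 ∨
      Fintype.card ι = 13 ∨
      Fintype.card ι = 14) :
    False := by
  rcases hm with hm | hm | hm | hm | hm | hm | hm | hm | hm
  · exact use_data h hm d_12_6
  · exact use_data h hm d_12_7
  · exact use_data h hm d_12_8
  · exact use_data h hm d_12_9
  · exact use_data h hm d_12_10
  · exact use_data h hm d_12_11
  · exact use_data h hm d_12_12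
  · exact use_data h hm d_12_13
  · exact use_data h hm d_12_14

theorem sm_13 {ev : (ι → ℤ) →+ G} (h : PC 13 ev)
    (hm : Fintype.card ι = 6 ∨
      Fintype.card ι = 7) :
    False := by
  rcases hm with hm | hm
  · exact use_data h hm d_13_6
  · exact use_data h hm d_13_7

theorem sm_14 {ev : (ι → ℤ) →+ G} (h : PC 14 ev)
    (hm : Fintype.card ι = 6 ∨
      Fintype.card ι = 7) :
    False := by
  rcases hm with hm | hm
  · exact use_data h hm d_14_6
  · exact use_data h hm d_14_7

theorem sm_15 {ev : (ι → ℤ) →+ G} (h : PC 15 ev)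
    (hm : Fintype.card ι = 7) :
    False := by
  exact use_data h hm d_15_7

theorem sm_16 {ev : (ι → ℤ) →+ G} (h : PC 16 ev)
    (hm : Fintype.card ι = 7) :
    False := by
  exact use_data h hm d_16_7

theorem sm_17 {ev : (ι → ℤ) →+ G} (h : PC 17 ev)
    (hm : Fintype.card ι = 7) :
    False := by
  exact use_data h hm d_17_7

/-- The region of small size. -/
theorem reg {s : ℕ} {ev : (ι → ℤ) →+ G} (h : PC s ev) (h3 : 3 ≤ Fintype.card ι)
    (hm : (s = 3 ∧ Fintype.card ι ≤ 10) ∨ (s = 4 ∧ Fintype.card ι ≤ 15) ∨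
      (s = 5 ∧ Fintype.card ι ≤ 21) ∨ (s = 6 ∧ Fintype.card ι ≤ 28) ∨
      (s = 7 ∧ Fintype.card ι ≤ 36) ∨
      (s = 8 ∧ (Fintype.card ι ≤ 36 ∨ Fintype.card ι = 40 ∨ Fintype.card ι = 45)) ∨
      (s = 9 ∧ (Fintype.card ι ≤ 46 ∨ Fintype.card ι = 50)) ∨
      (s = 10 ∧ (Fintype.card ι ≤ 56 ∨ Fintype.card ι = 60)) ∨
      (s = 11 ∧ Fintype.card ι ≤ 68) ∨
      (12 ≤ s ∧ 2 * Fintype.card ι + 6 ≤ s ^ 2 + 2 * s)) : False := by
  rcases hm with ⟨rfl, hm⟩ | ⟨rfl, hm⟩ | ⟨rfl, hm⟩ | ⟨rfl, hm⟩ | ⟨rfl, hm⟩ | ⟨rfl, hm⟩ |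
    ⟨rfl, hm⟩ | ⟨rfl, hm⟩ | ⟨rfl, hm⟩ | ⟨hs, hm⟩
  · exact sm_3 h (by omega)
  · exact sm_4 h (by omega)
  · rcases Nat.lt_or_ge 3 (Fintype.card ι) with h4 | h4
    · exact sm_5 h (by omega)
    · exact reg_3 h (by omega) (by omega)
  · rcases Nat.lt_or_ge 3 (Fintype.card ι) with h4 | h4
    · rcases Nat.lt_or_ge 4 (Fintype.card ι) with h5 | h5
      · by_cases hb : 10 ≤ Fintype.card ι ∧ Fintype.card ι ≤ 20
        · exact reg_b h (by omega)
        · exact sm_6 h (by omega)
      · exact reg_4 h (by omega) (by omega)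
    · exact reg_3 h (by omega) (by omega)
  · rcases Nat.lt_or_ge 3 (Fintype.card ι) with h4 | h4
    · rcases Nat.lt_or_ge 4 (Fintype.card ι) with h5 | h5
      · by_cases hb : 11 ≤ Fintype.card ι ∧ Fintype.card ι ≤ 27
        · exact reg_b h (by omega)
        · exact sm_7 h (by omega)
      · exact reg_4 h (by omega) (by omega)
    · exact reg_3 h (by omega) (by omega)
  · rcases Nat.lt_or_ge 3 (Fintype.card ι) with h4 | h4
    · rcases Nat.lt_or_ge 4 (Fintype.card ι) with h5 | h5
      · by_cases hb : 12 ≤ Fintype.card ι ∧ Fintype.card ι ≤ 36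
        · exact reg_b h (by omega)
        · exact sm_8 h (by omega)
      · exact reg_4 h (by omega) (by omega)
    · exact reg_3 h (by omega) (by omega)
  · rcases Nat.lt_or_ge 3 (Fintype.card ι) with h4 | h4
    · rcases Nat.lt_or_ge 4 (Fintype.card ι) with h5 | h5
      · by_cases hb : 12 ≤ Fintype.card ι ∧ Fintype.card ι ≤ 46
        · exact reg_b h (by omega)
        · exact sm_9 h (by omega)
      · exact reg_4 h (by omega) (by omega)
    · exact reg_3 h (by omega) (by omega)
  · rcases Nat.lt_or_ge 3 (Fintype.card ι) with h4 | h4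
    · rcases Nat.lt_or_ge 4 (Fintype.card ι) with h5 | h5
      · by_cases hb : 13 ≤ Fintype.card ι ∧ Fintype.card ι ≤ 56
        · exact reg_b h (by omega)
        · exact sm_10 h (by omega)
      · exact reg_4 h (by omega) (by omega)
    · exact reg_3 h (by omega) (by omega)
  · rcases Nat.lt_or_ge 3 (Fintype.card ι) with h4 | h4
    · rcases Nat.lt_or_ge 4 (Fintype.card ι) with h5 | h5
      · by_cases hb : 14 ≤ Fintype.card ι ∧ Fintype.card ι ≤ 68
        · exact reg_b h (by omega)
        · exact sm_11 h (by omega)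
      · exact reg_4 h (by omega) (by omega)
    · exact reg_3 h (by omega) (by omega)
  · rcases Nat.lt_or_ge 3 (Fintype.card ι) with h4 | h4
    · rcases Nat.lt_or_ge 4 (Fintype.card ι) with h5 | h5
      · rcases Nat.lt_or_ge (Fintype.card ι) (s + 3) with h6 | h6
        · rcases Nat.lt_or_ge 5 (Fintype.card ι) with h7 | h7
          · rcases Nat.lt_or_ge 12 s with h8 | h8
            · rcases Nat.lt_or_ge 7 (Fintype.card ι) with h9 | h9
              · exact reg_a h h8 h9 (by omega)
              · by_cases hb : (15 ≤ s ∧ Fintype.card ι = 6) ∨ (18 ≤ s ∧ Fintype.card ι = 7)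
                · exact reg_567 h (Or.inr hb)
                · have h10 : s = 13 ∨ s = 14 ∨ s = 15 ∨ s = 16 ∨ s = 17 := by omega
                  rcases h10 with rfl | rfl | rfl | rfl | rfl
                  · exact sm_13 h (by omega)
                  · exact sm_14 h (by omega)
                  · exact sm_15 h (by omega)
                  · exact sm_16 h (by omega)
                  · exact sm_17 h (by omega)
            · have h10 : s = 12 := by omega
              subst h10
              exact sm_12 h (by omega)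
          · exact reg_567 h (Or.inl ⟨hs, by omega⟩)
        · exact reg_b h (Or.inl ⟨hs, h6, hm⟩)
      · exact reg_4 h (by omega) (by omega)
    · exact reg_3 h (by omega) (by omega)

end Pool.Agent.H28.GR
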