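import Pool.Agent.H28.GR.Defs

/-!
# The certificate inequality with three levels
-/

set_option autoImplicit false
set_option linter.unusedSectionVars false

open Finset Pool.Agent.H23.GW Pool.Agent.H23.GC Pool.Agent.H23.GF
open scoped Classical Nat

namespace Pool.Agent.H28.GR

noncomputable section

variable {ι : Type} [Fintype ι] {G : Type} [AddCommGroup G]

/-- sign, with value one at zero -/
def sgz (z : ℤ) : ℤ := if z < 0 then -1 else 1

theorem sgz_cases (z : ℤ) : (sgz z = 1 ∧ 0 ≤ z) ∨ (sgz z = -1 ∧ z < 0) := by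
  unfold sgz
  split_ifs with h
  · exact Or.inr ⟨rfl, h⟩
  · exact Or.inl ⟨rfl, by omega⟩

/-- the vector of a triple -/
def toP (z : ι → ℤ) (x : (ι → ℕ) × ι × Bool) : ι → ℤ := fun j =>
  if j = x.2.1 then (if x.2.2 then z j + sgz (z j) else -sgz (z j)) else sgz (z j) * (x.1 j : ℤ)

/-- the triples -/
def TT (a : ι → ℕ) (n : ℕ) : Finset ((ι → ℕ) × ι × Bool) :=
  (sv a n ×ˢ univ).filter fun x => if x.2.2 then x.1 x.2.1 = a x.2.1 else x.1 x.2.1 = 0

theorem mem_TT {a : ι → ℕ} {n : ℕ} {x : (ι → ℕ) × ι × Bool} :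
    x ∈ TT a n ↔ x.1 ∈ sv a n ∧ if x.2.2 then x.1 x.2.1 = a x.2.1 else x.1 x.2.1 = 0 := by
  unfold TT
  rw [mem_filter, mem_product]
  simp

theorem sum_TT (a : ι → ℕ) (n : ℕ) (g : (ι → ℕ) → ℝ) :
    ∑ x ∈ TT a n, g (up x.1 x.2.1) =
      ∑ u ∈ sv a n, ∑ i, ((if u i = 0 then 1 else 0) + (if u i = a i then 1 else 0)) *
      g (up u i) := by
  unfold TT
  rw [sum_filter, sum_product]
  refine sum_congr rfl fun u _ => ?_
  rw [Fintype.sum_prod_type]
  refine sum_congr rfl fun i _ => ?_
  rw [Fintype.sum_bool]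
  simp only [if_true, Bool.false_eq_true, if_false]
  split_ifs <;> ring

theorem ab_toP {z : ι → ℤ} {n : ℕ} {x : (ι → ℕ) × ι × Bool} (hx : x ∈ TT (ab z) n) :
    ab (toP z x) = up x.1 x.2.1 := by
  obtain ⟨u, i, b⟩ := x
  rw [mem_TT] at hx
  obtain ⟨-, h⟩ := hx
  dsimp only at h
  funext j
  unfold ab toP up
  dsimp only
  by_cases hj : j = i
  · subst hj
    rw [Function.update_self, if_pos rfl]
    cases b
    · simp only [Bool.false_eq_true, if_false] at h ⊢
      rcases sgz_cases (z j) with h1 | h1 <;> omega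
    · simp only [if_true, ab] at h ⊢
      rcases sgz_cases (z j) with h1 | h1 <;> omega
  · rw [Function.update_of_ne hj, if_neg hj]
    rcases sgz_cases (z j) with h1 | h1 <;> rw [h1.1] <;> omega

/-- the excess of a coordinate of `p` over `z` -/
def exc (z p : ι → ℤ) (j : ι) : ℕ := ((p j).natAbs + (p j - z j).natAbs - (z j).natAbs) / 2

theorem exc_spec (z p : ι → ℤ) (j : ι) :
    (p j).natAbs + (p j - z j).natAbs = (z j).natAbs + 2 * exc z p j := by
  unfold exc
  omega

theorem sum_exc (z p : ι → ℤ) : nrm p + nrm (p - z) = nrm z + 2 * ∑ j, exc z p j := by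
  unfold nrm
  rw [← sum_add_distrib, mul_sum, ← sum_add_distrib]
  exact sum_congr rfl fun j _ => exc_spec z p j

theorem exc_toP {z : ι → ℤ} {n : ℕ} {x : (ι → ℕ) × ι × Bool} (hx : x ∈ TT (ab z) n) (j : ι) :
    exc z (toP z x) j = if j = x.2.1 then 1 else 0 := by
  obtain ⟨u, i, b⟩ := x
  rw [mem_TT, mem_sv] at hx
  obtain ⟨⟨h1, -⟩, h⟩ := hx
  have h2 := h1 j
  unfold exc toP
  dsimp only at h h2 ⊢
  by_cases hj : j = i
  · subst hj
    simp only [if_true]
    cases b
    · simp only [Bool.false_eq_true, if_false]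
      rcases sgz_cases (z j) with h1 | h1 <;> rw [h1.1] <;> omega
    · simp only [if_true]
      rcases sgz_cases (z j) with h1 | h1 <;> rw [h1.1] <;> omega
  · simp only [if_neg hj]
    unfold ab at h2
    rcases sgz_cases (z j) with h1 | h1 <;> rw [h1.1] <;> omega

theorem sum_up (u : ι → ℕ) (i : ι) : ∑ j, up u i j = ∑ j, u j + 1 := by
  unfold up
  rw [Finset.sum_update_of_mem (mem_univ i), ← Finset.add_sum_erase univ u (mem_univ i),
    Finset.sdiff_singleton_eq_erase]
  ring

theorem toP_inj {z : ι → ℤ} {n : ℕ} {x y : (ι → ℕ) × ι × Bool} (hx : x ∈ TT (ab z) n)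
    (hy : y ∈ TT (ab z) n) (h : toP z x = toP z y) : x = y := by
  have h1 : x.2.1 = y.2.1 := by
    by_contra hne
    have e1 := exc_toP hx x.2.1
    have e2 := exc_toP hy x.2.1
    rw [h, e2, if_pos rfl, if_neg hne] at e1
    omega
  have h2 : up x.1 x.2.1 = up y.1 y.2.1 := by rw [← ab_toP hx, ← ab_toP hy, h]
  obtain ⟨u, i, b⟩ := x
  obtain ⟨u', i', b'⟩ := y
  dsimp only at h1 h2
  subst h1
  have h3 : u = u' := by
    funext j
    have := congrFun h2 j
    unfold up at this
    by_cases hj : j = i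
    · subst hj
      rw [Function.update_self, Function.update_self] at this
      omega
    · rwa [Function.update_of_ne hj, Function.update_of_ne hj] at this
  subst h3
  have h4 := congrFun h i
  unfold toP at h4
  dsimp only at h4
  rw [if_pos rfl, if_pos rfl] at h4
  have h5 : b = b' := by
    cases b <;> cases b'
    · rfl
    · simp only [if_true, Bool.false_eq_true, if_false] at h4
      rcases sgz_cases (z i) with h1 | h1 <;> rw [h1.1] at h4 <;> omega
    · simp only [if_true, Bool.false_eq_true, if_false] at h4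
      rcases sgz_cases (z i) with h1 | h1 <;> rw [h1.1] at h4 <;> omega
    · rfl
  rw [h5]

theorem toP_surj {s : ℕ} {z p : ι → ℤ} (hz : nrm z = 2 * s + 1) (hp : nrm p = s + 3)
    (h : nrm (p - z) ≤ s) (hn : ¬ Le p z) : ∃ x ∈ TT (ab z) (s + 2), toP z x = p := by
  have h1 := sum_exc z p
  have h2 : ∑ j, exc z p j = 1 := by
    have h3 : ∑ j, exc z p j ≠ 0 := by
      intro h3
      apply hn
      unfold Le
      rw [nrm_sub_comm z p]
      omega
    omega
  obtain ⟨i, hi⟩ : ∃ i, exc z p i ≠ 0 := by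
    by_contra hc
    push Not at hc
    simp [hc] at h2
  have h3 : exc z p i + ∑ j ∈ univ.erase i, exc z p j = 1 := by
    rw [Finset.add_sum_erase univ _ (mem_univ i), h2]
  have h4 : exc z p i = 1 := by omega
  have h5 : ∀ j, j ≠ i → exc z p j = 0 := by
    intro j hj
    have : ∑ j ∈ univ.erase i, exc z p j = 0 := by omega
    rw [sum_eq_zero_iff] at this
    exact this j (mem_erase.2 ⟨hj, mem_univ j⟩)
  have h6 := exc_spec z p i
  rw [h4] at h6
  by_cases hb : p i = z i + sgz (z i)
  · refine ⟨(fun j => if j = i then (z j).natAbs else (p j).natAbs, i, true), ?_, ?_⟩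
    · rw [mem_TT, mem_sv]
      refine ⟨⟨fun j => ?_, ?_⟩, by simp [ab]⟩
      · dsimp only
        by_cases hj : j = i
        · rw [if_pos hj]
          exact le_rfl
        · rw [if_neg hj]
          have := exc_spec z p j
          rw [h5 j hj] at this
          unfold ab
          omega
      · dsimp only
        have e1 : nrm p = (p i).natAbs + ∑ j ∈ univ.erase i, (p j).natAbs := by
          unfold nrm
          exact (Finset.add_sum_erase univ (fun j => (p j).natAbs) (mem_univ i)).symm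
        have e2 : ∑ j, (if j = i then (z j).natAbs else (p j).natAbs) =
            (z i).natAbs + ∑ j ∈ univ.erase i, (p j).natAbs := by
          rw [← Finset.add_sum_erase univ _ (mem_univ i), if_pos rfl]
          congr 1
          exact sum_congr rfl fun j hj => if_neg (ne_of_mem_erase hj)
        rw [e2]
        rcases sgz_cases (z i) with h1 | h1 <;> rw [h1.1] at hb <;> omega
    · funext j
      unfold toP
      dsimp only
      by_cases hj : j = i
      · subst hj
        rw [if_pos rfl, if_pos rfl, hb]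
      · rw [if_neg hj, if_neg hj]
        have := exc_spec z p j
        rw [h5 j hj] at this
        rcases sgz_cases (z j) with h1 | h1 <;> rw [h1.1] <;> omega
  · refine ⟨(fun j => if j = i then 0 else (p j).natAbs, i, false), ?_, ?_⟩
    · rw [mem_TT, mem_sv]
      refine ⟨⟨fun j => ?_, ?_⟩, by simp⟩
      · dsimp only
        by_cases hj : j = i
        · rw [if_pos hj]
          exact Nat.zero_le _
        · rw [if_neg hj]
          have := exc_spec z p j
          rw [h5 j hj] at this
          unfold ab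
          omega
      · dsimp only
        have e1 : nrm p = (p i).natAbs + ∑ j ∈ univ.erase i, (p j).natAbs := by
          unfold nrm
          exact (Finset.add_sum_erase univ (fun j => (p j).natAbs) (mem_univ i)).symm
        have e2 : ∑ j, (if j = i then 0 else (p j).natAbs) =
            0 + ∑ j ∈ univ.erase i, (p j).natAbs := by
          rw [← Finset.add_sum_erase univ _ (mem_univ i), if_pos rfl]
          congr 1
          exact sum_congr rfl fun j hj => if_neg (ne_of_mem_erase hj)
        rw [e2]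
        rcases sgz_cases (z i) with h1 | h1 <;> rw [h1.1] at hb <;> omega
    · funext j
      unfold toP
      dsimp only
      by_cases hj : j = i
      · subst hj
        rw [if_pos rfl]
        simp only [Bool.false_eq_true, if_false]
        rcases sgz_cases (z j) with h1 | h1 <;> rw [h1.1] at hb ⊢ <;> omega
      · rw [if_neg hj, if_neg hj]
        have := exc_spec z p j
        rw [h5 j hj] at this
        rcases sgz_cases (z j) with h1 | h1 <;> rw [h1.1] <;> omega

/-- the vectors of norm `s + 3` near a vector of norm `2 s + 1` -/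
theorem sum_near {s : ℕ} {z : ι → ℤ} (hz : nrm z = 2 * s + 1) (g : (ι → ℕ) → ℝ) :
    ∑ p ∈ Vn ι (s + 3) with nrm (p - z) ≤ s, g (ab p) = NB s (ab z) g := by
  unfold NB
  rw [← sum_TT, ← sum_Le z (s + 3) (fun u _ => g u),
    ← sum_filter_add_sum_filter_not ({p ∈ Vn ι (s + 3) | nrm (p - z) ≤ s}) (fun p => Le p z)]
  congr 1
  · refine sum_congr ?_ fun _ _ => rfl
    rw [filter_filter]
    refine filter_congr fun p hp => ?_
    rw [mem_Vn] at hp
    refine ⟨fun h => h.2, fun h => ⟨?_, h⟩⟩
    unfold Le at h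
    rw [nrm_sub_comm]
    omega
  · symm
    refine sum_bij (fun x _ => toP z x) ?_ (fun x hx y hy h => toP_inj hx hy h) ?_ ?_
    · intro x hx
      have h1 := sum_exc z (toP z x)
      have h2 : ∑ j, exc z (toP z x) j = 1 := by
        simp only [exc_toP hx]
        simp
      have h3 : nrm (toP z x) = s + 3 := by
        rw [nrm_eq, ab_toP hx, sum_up, (mem_sv.1 (mem_TT.1 hx).1).2]
      rw [mem_filter, mem_filter, mem_Vn]
      refine ⟨⟨h3, by omega⟩, ?_⟩
      unfold Le
      rw [nrm_sub_comm z]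
      omega
    · intro p hp
      rw [mem_filter, mem_filter, mem_Vn] at hp
      obtain ⟨x, hx, h⟩ := toP_surj hz hp.1.1 hp.1.2 hp.2
      exact ⟨x, hx, h⟩
    · intro x hx
      rw [ab_toP hx]

/-- summing over the vectors of norm `s + 3` -/
theorem sum_R3 {s : ℕ} {ev : (ι → ℤ) →+ G} (h : PC s ev) (F : (ι → ℤ) → ℝ) :
    ∑ z ∈ Lv ev (2 * s + 1) ∪ Lv ev (2 * s + 2) ∪ Lv ev (2 * s + 3),
      ∑ p ∈ Vn ι (s + 3) with nrm (p - z) ≤ s, F p = ∑ p ∈ Vn ι (s + 3), F p := by
  simp only [sum_filter]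
  rw [sum_comm]
  refine sum_congr rfl fun c hc => ?_
  obtain ⟨v, ⟨h1, h2⟩, hu⟩ := R3 h hc
  rw [sum_eq_single v, if_pos h2]
  · intro w hw hne
    exact if_neg fun h3 => hne (hu w ⟨hw, h3⟩)
  · exact fun h3 => absurd h1 h3

theorem near_Le {s : ℕ} {z p : ι → ℤ} (hz : nrm z = 2 * s + 2 ∨ nrm z = 2 * s + 3)
    (hp : nrm p = s + 3) : nrm (p - z) ≤ s ↔ Le p z := by
  have h1 := sum_exc z p
  unfold Le
  rw [nrm_sub_comm z p]
  constructor
  · intro h
    rcases hz with hz | hz
    · have : ∑ j, exc z p j = 0 := by omega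
      omega
    · omega
  · intro h
    omega

theorem cz : T_CZ := by
  intro ι _ G _ s ev h0 h f g H1 H2 H3
  rw [← sum_Vn, ← sum_Vn, ← sum_Vn, ← sum_R1 h0, ← sum_R2 h0, ← sum_R3 h0,
    sum_union (disj_Lv ev (by omega)), sum_union, sum_union (disj_Lv ev (by omega))]
  · have e1 : ∀ (n : ℕ) (z : ι → ℤ) (F : (ι → ℕ) → ℝ), ∑ c ∈ Vn ι n with Le c z, F (ab c) =
        ∑ u ∈ sv (ab z) n, F u := fun n z F => sum_Le z n (fun u _ => F u)
    have e2 : ∀ z : ι → ℤ, nrm z = 2 * s + 2 ∨ nrm z = 2 * s + 3 →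
        ∑ p ∈ Vn ι (s + 3) with nrm (p - z) ≤ s, g (ab p) = ∑ u ∈ sv (ab z) (s + 3), g u := by
      intro z hz
      rw [← e1]
      refine sum_congr (filter_congr fun p hp => ?_) fun _ _ => rfl
      exact near_Le hz (mem_Vn.1 hp)
    have k1 : 0 ≤ ∑ z ∈ Lv ev (2 * s + 1), ((∑ c ∈ Vn ι (s + 1) with Le c z, h (ab c)) +
        (∑ c ∈ Vn ι (s + 2) with Le c z, f (ab c)) +
        ∑ p ∈ Vn ι (s + 3) with nrm (p - z) ≤ s, g (ab p)) := by
      refine sum_nonneg fun z hz => ?_
      rw [mem_Lv] at hz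
      rw [e1, e1, sum_near hz.1]
      exact H1 (ab z) hz.1
    have k2 : 0 ≤ ∑ z ∈ Lv ev (2 * s + 2), ((∑ c ∈ Vn ι (s + 2) with Le c z, f (ab c)) +
        ∑ p ∈ Vn ι (s + 3) with nrm (p - z) ≤ s, g (ab p)) := by
      refine sum_nonneg fun z hz => ?_
      rw [mem_Lv] at hz
      rw [e1, e2 z (Or.inl hz.1)]
      exact H2 (ab z) hz.1
    have k3 : 0 ≤ ∑ z ∈ Lv ev (2 * s + 3),
        ∑ p ∈ Vn ι (s + 3) with nrm (p - z) ≤ s, g (ab p) := by
      refine sum_nonneg fun z hz => ?_
      rw [mem_Lv] at hz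
      rw [e2 z (Or.inr hz.1)]
      exact H3 (ab z) hz.1
    rw [sum_add_distrib, sum_add_distrib] at k1
    rw [sum_add_distrib] at k2
    linarith
  · rw [disjoint_union_left]
    exact ⟨disj_Lv ev (by omega), disj_Lv ev (by omega)⟩

end

end Pool.Agent.H28.GR
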