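import Pool.Agent.H28.GR.Defs

/-!
# A checker for certificates: enumeration of the non-increasing sequences
-/

set_option autoImplicit false
set_option linter.unusedSectionVars false

open Finset Pool.Agent.H23.GW Pool.Agent.H23.GC Pool.Agent.H23.GF
open scoped Classical Nat

namespace Pool.Agent.H28.GR

/-- strict evaluation -/
def force (n : ℕ) (f : ℕ → Bool) : Bool := Nat.rec (f 0) (fun k _ => f (Nat.succ k)) n

theorem force_eq (n : ℕ) (f : ℕ → Bool) : force n f = f n := by
  cases n <;> rfl

/-- the loop over the largest part -/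
noncomputable def loop (Ad Bq : ℕ → ℕ) (ih : ℕ → ℕ → ℕ → ℕ → Bool) (r n p q c : ℕ) :
    ℕ → ℕ → Bool :=
  Nat.rec (fun _ _ => true) (fun _ rc k A =>
    force (Nat.add A (Ad k)) fun A' => force (Nat.succ k) fun k' =>
      Bool.rec false (rc k' A')
        (Bool.rec true
          (force (Nat.mul p A') fun p' =>
            force (Nat.add (Nat.mul q A') (Nat.mul p (Bq k))) fun q' =>
              force (Nat.sub n k) fun n' => ih k n' p' q')
          (Nat.ble n (Nat.mul k (Nat.succ r))))) c

/-- enumeration of the non-increasing sequences with `r` terms, largest term at most `mx`,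
sum `n` -/
noncomputable def chk (Ad Bq : ℕ → ℕ) (test : ℕ → ℕ → Bool) (r : ℕ) : ℕ → ℕ → ℕ → ℕ → Bool :=
  Nat.rec (fun _ n p q => Bool.rec true (test p q) (Nat.beq n 0))
    (fun r ih mx n p q =>
      Bool.rec
        (loop Ad Bq ih r n p q (Bool.rec n mx (Nat.ble mx n)) 1 1)
        (test p (Nat.add q (Nat.mul (Nat.succ r) (Nat.mul (Bq 0) p))))
        (Nat.beq n 0)) r

/-- partial sums -/
def AA (Ad : ℕ → ℕ) : ℕ → ℕ
  | 0 => 1
  | k + 1 => AA Ad k + Ad (k + 1)

theorem loop_sound (Ad Bq : ℕ → ℕ) (ih : ℕ → ℕ → ℕ → ℕ → Bool) (r n p q : ℕ) :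
    ∀ c k : ℕ, loop Ad Bq ih r n p q c (k + 1) (AA Ad k) = true →
      ∀ k', k < k' → k' ≤ k + c → n ≤ k' * (r + 1) →
        ih k' (n - k') (p * AA Ad k') (q * AA Ad k' + p * Bq k') = true := by
  intro c
  induction c with
  | zero =>
    intro k _ k' h1 h2
    omega
  | succ c hc =>
    intro k h k' h1 h2 h3
    have h4 : loop Ad Bq ih r n p q (c + 1) (k + 1) (AA Ad k) =
        force (Nat.add (AA Ad k) (Ad (k + 1))) fun A' => force (Nat.succ (k + 1)) fun k' =>
          Bool.rec false (loop Ad Bq ih r n p q c k' A')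
            (Bool.rec true
              (force (Nat.mul p A') fun p' =>
                force (Nat.add (Nat.mul q A') (Nat.mul p (Bq (k + 1)))) fun q' =>
                  force (Nat.sub n (k + 1)) fun n' => ih (k + 1) n' p' q')
              (Nat.ble n (Nat.mul (k + 1) (Nat.succ r)))) := rfl
    rw [h4] at h
    simp only [force_eq] at h
    have h5 : Nat.add (AA Ad k) (Ad (k + 1)) = AA Ad (k + 1) := rfl
    rw [h5] at h
    by_cases h6 : Nat.ble n (Nat.mul (k + 1) (Nat.succ r)) = true
    · rw [h6] at h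
      by_cases h7 : ih (k + 1) (Nat.sub n (k + 1)) (Nat.mul p (AA Ad (k + 1)))
          (Nat.add (Nat.mul q (AA Ad (k + 1))) (Nat.mul p (Bq (k + 1)))) = true
      · rw [h7] at h
        by_cases h8 : k' = k + 1
        · subst h8
          exact h7
        · exact hc (k + 1) h k' (by omega) (by omega) h3
      · rw [Bool.not_eq_true] at h7
        rw [h7] at h
        exact absurd (show false = true from h) (by decide)
    · have h8 : k' ≠ k + 1 := by
        rintro rfl
        exact h6 (by rw [Nat.ble_eq]; exact h3)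
      rw [Bool.not_eq_true] at h6
      rw [h6] at h
      exact hc (k + 1) h k' (by omega) (by omega) h3

/-- sum of the products with one factor replaced -/
noncomputable def SS {ι : Type} (Ad Bq : ℕ → ℕ) (T : Finset ι) (a : ι → ℕ) : ℕ :=
  ∑ i ∈ T, Bq (a i) * ∏ j ∈ T.erase i, AA Ad (a j)

theorem SS_insert {ι : Type} (Ad Bq : ℕ → ℕ) (T : Finset ι) (a : ι → ℕ) {i : ι}
    (hi : i ∈ T) : SS Ad Bq T a = Bq (a i) * ∏ j ∈ T.erase i, AA Ad (a j) +
      AA Ad (a i) * SS Ad Bq (T.erase i) a := by
  unfold SS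
  rw [← Finset.add_sum_erase T _ hi, mul_sum]
  congr 1
  refine sum_congr rfl fun j hj => ?_
  have h1 : j ≠ i := (mem_erase.1 hj).1
  rw [Finset.erase_right_comm, ← mul_assoc, mul_comm (AA Ad (a i)), mul_assoc]
  congr 1
  rw [← Finset.mul_prod_erase (T.erase j) (fun j => AA Ad (a j)) (mem_erase.2 ⟨h1.symm, hi⟩)]

theorem chk_sound {ι : Type} (Ad Bq : ℕ → ℕ) (test : ℕ → ℕ → Bool) :
    ∀ (r mx n p q : ℕ) (T : Finset ι) (a : ι → ℕ), #T = r → (∀ i ∈ T, a i ≤ mx) →
      ∑ i ∈ T, a i = n → chk Ad Bq test r mx n p q = true →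
      test (p * ∏ i ∈ T, AA Ad (a i)) (q * (∏ i ∈ T, AA Ad (a i)) + p * SS Ad Bq T a) = true := by
  intro r
  induction r with
  | zero =>
    intro mx n p q T a hT _ hn h
    rw [card_eq_zero] at hT
    subst hT
    rw [sum_empty] at hn
    subst hn
    have h1 : chk Ad Bq test 0 mx 0 p q = test p q := rfl
    rw [h1] at h
    simpa [SS] using h
  | succ r hr =>
    intro mx n p q T a hT hmx hn h
    by_cases h0 : n = 0
    · subst h0
      have h1 : chk Ad Bq test (r + 1) mx 0 p q =
        test p (Nat.add q (Nat.mul (Nat.succ r) (Nat.mul (Bq 0) p))) := rfl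
      rw [h1] at h
      have h2 : ∀ i ∈ T, a i = 0 := by
        intro i hi
        exact (sum_eq_zero_iff.1 hn) i hi
      have h3 : ∀ S : Finset ι, S ⊆ T → ∏ i ∈ S, AA Ad (a i) = 1 := by
        intro S hS
        refine prod_eq_one fun i hi => ?_
        rw [h2 i (hS hi)]
        rfl
      have h4 : SS Ad Bq T a = (r + 1) * Bq 0 := by
        unfold SS
        rw [← hT, ← smul_eq_mul, ← sum_const]
        refine sum_congr rfl fun i hi => ?_
        rw [h3 _ (erase_subset _ _), h2 i hi, mul_one]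
      rw [h3 T (Subset.refl T), h4, mul_one, mul_one]
      have h5 : q + p * ((r + 1) * Bq 0) =
          Nat.add q (Nat.mul (Nat.succ r) (Nat.mul (Bq 0) p)) := by
        show _ = q + (r + 1) * (Bq 0 * p)
        ring
      rw [h5]
      exact h
    · have h1 : chk Ad Bq test (r + 1) mx n p q =
          Bool.rec (loop Ad Bq (chk Ad Bq test r) r n p q (Bool.rec n mx (Nat.ble mx n)) 1 1)
            (test p (Nat.add q (Nat.mul (Nat.succ r) (Nat.mul (Bq 0) p)))) (Nat.beq n 0) := rfl
      have h2 : Nat.beq n 0 = false := by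
        rw [← Bool.not_eq_true]
        intro h3
        exact h0 (Nat.eq_of_beq_eq_true h3)
      rw [h1, h2] at h
      have hne : T.Nonempty := by
        rw [← card_pos, hT]
        omega
      obtain ⟨i, hi, hmax⟩ := exists_max_image T a hne
      have h3 : n ≤ a i * (r + 1) := by
        rw [← hn, ← hT, mul_comm, ← smul_eq_mul, ← sum_const]
        exact sum_le_sum fun j hj => hmax j hj
      have h4 : a i ≤ n := by
        rw [← hn]
        exact single_le_sum (f := a) (fun _ _ => Nat.zero_le _) hi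
      have h5 : 0 < a i := by
        rcases Nat.eq_zero_or_pos (a i) with h6 | h6
        · rw [h6] at h3
          omega
        · exact h6
      have h6 : a i ≤ 0 + (Bool.rec n mx (Nat.ble mx n) : ℕ) := by
        have := hmx i hi
        by_cases h7 : Nat.ble mx n = true
        · rw [h7]
          show a i ≤ 0 + mx
          omega
        · rw [Bool.not_eq_true] at h7
          rw [h7]
          show a i ≤ 0 + n
          omega
      have h7 := loop_sound Ad Bq (chk Ad Bq test r) r n p q _ 0 h (a i) h5 h6 h3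
      have h8 := hr (a i) (n - a i) (p * AA Ad (a i)) (q * AA Ad (a i) + p * Bq (a i))
        (T.erase i) a (by rw [card_erase_of_mem hi, hT]; rfl)
        (fun j hj => hmax j (mem_of_mem_erase hj))
        (by rw [← hn, ← Finset.add_sum_erase T a hi]; omega) h7
      rw [SS_insert Ad Bq T a hi, ← Finset.mul_prod_erase T (fun i => AA Ad (a i)) hi]
      have h9 : p * (AA Ad (a i) * ∏ x ∈ T.erase i, AA Ad (a x)) =
          p * AA Ad (a i) * ∏ x ∈ T.erase i, AA Ad (a x) := by ring
      have h10 : q * (AA Ad (a i) * ∏ x ∈ T.erase i, AA Ad (a x)) +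
          p * (Bq (a i) * ∏ j ∈ T.erase i, AA Ad (a j) + AA Ad (a i) * SS Ad Bq (T.erase i) a) =
          (q * AA Ad (a i) + p * Bq (a i)) * ∏ x ∈ T.erase i, AA Ad (a x) +
          p * AA Ad (a i) * SS Ad Bq (T.erase i) a := by ring
      rw [h9, h10]
      exact h8

/-- iterated product modulo `Y` -/
noncomputable def powmod (F Y m : ℕ) : ℕ → (ℕ → Bool) → Bool :=
  Nat.rec (fun g f => f g) (fun _ rc g f => force (Nat.mod (Nat.mul g F) Y) fun g' => rc g' f) m

theorem powmod_eq (F Y : ℕ) (f : ℕ → Bool) : ∀ (m g : ℕ),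
    powmod F Y m g f = true → ∃ x : ℕ, x ≡ g * F ^ m [MOD Y] ∧ f x = true := by
  intro m
  induction m with
  | zero =>
    intro g h
    exact ⟨g, by simp [Nat.ModEq], h⟩
  | succ m hm =>
    intro g h
    have h1 : powmod F Y (m + 1) g f =
        force (Nat.mod (Nat.mul g F) Y) fun g' => powmod F Y m g' f := rfl
    rw [h1, force_eq] at h
    obtain ⟨x, h2, h3⟩ := hm _ h
    refine ⟨x, ?_, h3⟩
    have h4 : Nat.mod (Nat.mul g F) Y ≡ g * F [MOD Y] := Nat.mod_modEq _ _
    calc x ≡ Nat.mod (Nat.mul g F) Y * F ^ m [MOD Y] := h2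
      _ ≡ g * F * F ^ m [MOD Y] := h4.mul_right _
      _ = g * F ^ (m + 1) := by ring

/-- digit -/
def dg (B p t : ℕ) : ℕ := Nat.mod (Nat.div p (Nat.pow B t)) B

theorem dg_sum {α : Type} (S : Finset α) (w ph : α → ℕ) (B t : ℕ) (hB : ∑ x ∈ S, w x < B) :
    dg B (∑ x ∈ S, w x * B ^ ph x) t = ∑ x ∈ S with ph x = t, w x := by
  have hB0 : 0 < B := by omega
  show (∑ x ∈ S, w x * B ^ ph x) / B ^ t % B = _
  have h1 : ∑ x ∈ S, w x * B ^ ph x = (∑ x ∈ S with ph x < t, w x * B ^ ph x) +
      B ^ t * ((∑ x ∈ S with ph x = t, w x) +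
        B * ∑ x ∈ S with t < ph x, w x * B ^ (ph x - t - 1)) := by
    simp only [sum_filter, mul_sum, mul_add]
    rw [← sum_add_distrib, ← sum_add_distrib]
    refine sum_congr rfl fun x _ => ?_
    rcases lt_trichotomy (ph x) t with h | h | h
    · rw [if_pos h, if_neg (by omega), if_neg (by omega)]
      simp
    · rw [if_neg (by omega), if_pos h, if_neg (by omega), h]
      ring
    · rw [if_neg (by omega), if_neg (by omega), if_pos h]
      have : B ^ ph x = B ^ t * (B * B ^ (ph x - t - 1)) := by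
        rw [← pow_succ', ← pow_add]
        congr 1
        omega
      rw [this]
      ring
  have h2 : ∑ x ∈ S with ph x < t, w x * B ^ ph x < B ^ t := by
    rcases Nat.eq_zero_or_pos t with h | h
    · subst h
      simp
    · have h3 : ∑ x ∈ S with ph x < t, w x * B ^ ph x ≤ (∑ x ∈ S, w x) * B ^ (t - 1) := by
        rw [sum_mul]
        refine (sum_le_sum fun x hx => ?_).trans
          (sum_le_sum_of_subset (filter_subset _ _))
        rw [mem_filter] at hx
        exact Nat.mul_le_mul_left _ (Nat.pow_le_pow_right hB0 (by omega))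
      have h4 : (∑ x ∈ S, w x) * B ^ (t - 1) < B * B ^ (t - 1) :=
        Nat.mul_lt_mul_of_pos_right hB (pow_pos hB0 _)
      have h5 : B * B ^ (t - 1) = B ^ t := by
        rw [← pow_succ']
        congr 1
        omega
      omega
  have h3 : ∑ x ∈ S with ph x = t, w x < B :=
    lt_of_le_of_lt (sum_le_sum_of_subset (filter_subset _ _)) hB
  rw [h1, Nat.add_mul_div_left _ _ (pow_pos hB0 t), Nat.div_eq_of_lt h2, zero_add,
    Nat.add_mul_mod_self_left, Nat.mod_eq_of_lt h3]

theorem dg_mod {B x y T t : ℕ} (h : x ≡ y [MOD B ^ T]) (ht : t < T) : dg B x t = dg B y t := by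
  show x / B ^ t % B = y / B ^ t % B
  have h1 : x ≡ y [MOD B ^ t * B] := by
    refine h.of_dvd ?_
    rw [← pow_succ]
    exact pow_dvd_pow B ht
  have h2 : ∀ z : ℕ, z / B ^ t % B = z % (B ^ t * B) / B ^ t := fun z => by
    rw [Nat.mod_mul_right_div_self]
  rw [h2, h2, h1]

end Pool.Agent.H28.GR
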