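import Pool.Agent.H23.GF.Nat

/-!
# Perfect spanning sets: the region of small size, definitions and targets

`V m n` = number of integer vectors with `m` coordinates and norm `n`; `NB s a g` = sum of `g` over
the vectors of norm `s + 3` at distance at most `s` from a vector with absolute values `a`
(sum of `a` = `2 s + 1`).
-/

set_option autoImplicit false

open Finset Pool.Agent.H23.GW Pool.Agent.H23.GC Pool.Agent.H23.GF
open scoped Classical Nat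

namespace Pool.Agent.H28.GR

noncomputable section

/-- the number of integer vectors of norm `n` with `m` coordinates -/
def V : ℕ → ℕ → ℕ
  | _, 0 => 1
  | 0, _ + 1 => 0
  | m + 1, n + 1 => V m (n + 1) + V m n + V (m + 1) n
termination_by m n => (m, n)

/-- add one to the coordinate `i` -/
def up {ι : Type} (u : ι → ℕ) (i : ι) : ι → ℕ := Function.update u i (u i + 1)

/-- the sum of `g` over the vectors of norm `s + 3` at distance at most `s` from a vector with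
absolute values `a`, `∑ a = 2 s + 1` -/
def NB {ι : Type} [Fintype ι] (s : ℕ) (a : ι → ℕ) (g : (ι → ℕ) → ℝ) : ℝ :=
  ∑ u ∈ sv a (s + 3), g u +
    ∑ u ∈ sv a (s + 2), ∑ i, ((if u i = 0 then 1 else 0) + (if u i = a i then 1 else 0)) *
      g (up u i)

/-- (VC) counting the vectors of norm `n`. -/
def T_VC : Prop := ∀ (ι : Type) [Fintype ι] (n : ℕ), #(Vn ι n) = V (Fintype.card ι) n

/-- (VR) the three term recurrence. -/
def T_VR : Prop := ∀ m n : ℕ,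
  (n + 2) * V m (n + 2) = 2 * m * V m (n + 1) + n * V m n

/-- (VL) log-concavity. -/
def T_VL : Prop := ∀ m n : ℕ, 2 ≤ m → V m n * V m (n + 2) ≤ V m (n + 1) ^ 2

/-- (CZ) the certificate inequality with all three levels. -/
def T_CZ : Prop := ∀ (ι : Type) [Fintype ι] (G : Type) [AddCommGroup G] (s : ℕ)
  (ev : (ι → ℤ) →+ G), PC s ev → ∀ h f g : (ι → ℕ) → ℝ,
  (∀ a : ι → ℕ, ∑ i, a i = 2 * s + 1 →
    0 ≤ ∑ u ∈ sv a (s + 1), h u + ∑ u ∈ sv a (s + 2), f u + NB s a g) →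
  (∀ a : ι → ℕ, ∑ i, a i = 2 * s + 2 →
    0 ≤ ∑ u ∈ sv a (s + 2), f u + ∑ u ∈ sv a (s + 3), g u) →
  (∀ a : ι → ℕ, ∑ i, a i = 2 * s + 3 → 0 ≤ ∑ u ∈ sv a (s + 3), g u) →
  0 ≤ ∑ u ∈ nv ι (s + 1), 2 ^ lN u * h u + ∑ u ∈ nv ι (s + 2), 2 ^ lN u * f u +
    ∑ u ∈ nv ι (s + 3), 2 ^ lN u * g u

/-- (W) symmetry and unimodality of the number of sub-vectors, and the ratio of consecutive
numbers. -/
def T_W : Prop := ∀ (ι : Type) [Fintype ι] (a : ι → ℕ),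
  (∀ n n' : ℕ, n + n' = ∑ i, a i → #(sv a n) = #(sv a n')) ∧
  (∀ n n' : ℕ, n ≤ n' → n + n' ≤ ∑ i, a i → #(sv a n) ≤ #(sv a n')) ∧
  (∀ n n' : ℕ, n' ≤ n → ∑ i, a i ≤ n + n' → #(sv a n) ≤ #(sv a n')) ∧
  (∀ n : ℕ, 2 * n + 1 ≤ ∑ i, a i → (n + 1) * #(sv a (n + 1)) ≤ (∑ i, a i - n) * #(sv a n))

/-- (RA) the first inequality. -/
def T_RA : Prop := ∀ (ι : Type) [Fintype ι] (G : Type) [AddCommGroup G] (s : ℕ)
  (ev : (ι → ℤ) →+ G), 2 ≤ s → PC s ev →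
  ((s : ℝ) * (s - 1) / ((s + 2) * (s + 3)) + Fintype.card ι - s - 1) * V (Fintype.card ι) (s + 1) +
    s * V (Fintype.card ι) s ≤ V (Fintype.card ι) (s + 3)

/-- (PA) the numerical part of the first region. -/
def T_PA : Prop := ∀ s m : ℕ, 13 ≤ s → 8 ≤ m → m ≤ s + 2 →
  (V m (s + 3) : ℝ) <
    ((s : ℝ) * (s - 1) / ((s + 2) * (s + 3)) + m - s - 1) * V m (s + 1) + s * V m s

/-- (RB) the crude inequality. -/
def T_RB : Prop := ∀ (ι : Type) [Fintype ι] (G : Type) [AddCommGroup G] (s : ℕ)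
  (ev : (ι → ℤ) →+ G), 2 ≤ s → s + 1 ≤ Fintype.card ι → PC s ev →
  (s : ℝ) / (s + 2) * (2 * Fintype.card ι - 2 * s - 1 - 1 / (s + 3)) * V (Fintype.card ι) (s + 1) +
    s / (s + 3) * V (Fintype.card ι) (s + 2) ≤ V (Fintype.card ι) (s + 3)

/-- (PB) the numerical part of the crude region. -/
def T_PB : Prop := ∀ s m : ℕ, (12 ≤ s ∧ s + 3 ≤ m ∧ 2 * m + 6 ≤ s ^ 2 + 2 * s) ∨
    (s = 6 ∧ 10 ≤ m ∧ m ≤ 20) ∨ (s = 7 ∧ 11 ≤ m ∧ m ≤ 27) ∨ (s = 8 ∧ 12 ≤ m ∧ m ≤ 36) ∨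
    (s = 9 ∧ 12 ≤ m ∧ m ≤ 46) ∨ (s = 10 ∧ 13 ≤ m ∧ m ≤ 56) ∨ (s = 11 ∧ 14 ≤ m ∧ m ≤ 68) →
  (V m (s + 3) : ℝ) < (s : ℝ) / (s + 2) * (2 * m - 2 * s - 1 - 1 / (s + 3)) * V m (s + 1) +
    s / (s + 3) * V m (s + 2)

/-- (VX) the vertex argument. -/
def T_VX : Prop := ∀ (ι : Type) [Fintype ι] (G : Type) [AddCommGroup G] (s k : ℕ)
  (ev : (ι → ℤ) →+ G), PC s ev → 2 * Fintype.card ι ≤ 2 ^ k → k + 1 ≤ Fintype.card ι →
  (k - 1) * (Fintype.card ι - 1) ≤ s → False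

/-- (V3) three coordinates. -/
def T_V3 : Prop := ∀ (ι : Type) [Fintype ι] (G : Type) [AddCommGroup G] (s : ℕ)
  (ev : (ι → ℤ) →+ G), PC s ev → 5 ≤ s → Fintype.card ι = 3 → False

/-- the final statement of the region of small size -/
def T_REG : Prop := ∀ (ι : Type) [Fintype ι] (G : Type) [AddCommGroup G] (s : ℕ)
  (ev : (ι → ℤ) →+ G), PC s ev → 3 ≤ s → 3 ≤ Fintype.card ι →
  (12 ≤ s → Fintype.card ι * 2 + 6 ≤ s ^ 2 + 2 * s → False) ∧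
  (s = 8 → Fintype.card ι ≤ 36 → False) ∧ (s = 9 → Fintype.card ι ≤ 46 → False) ∧
  (s = 10 → Fintype.card ι ≤ 56 → False) ∧ (s = 11 → Fintype.card ι ≤ 68 → False)

end

end Pool.Agent.H28.GR
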