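import Pool.Agent.H28.GR.Chk

/-!
# Soundness of the checker of certificates
-/

set_option autoImplicit false
set_option linter.unusedSectionVars false

open Finset Pool.Agent.H23.GW Pool.Agent.H23.GC Pool.Agent.H23.GF
open scoped Classical

namespace Pool.Agent.H28.GR

/-- statistic of a coordinate -/
def st (c1 c2 k : ℕ) : ℕ := Nat.rec 0 (fun j _ => Nat.rec c1 (fun _ _ => Nat.add c1 c2) j) k

/-- exponent of a coordinate -/
def ex (E c1 c2 k : ℕ) : ℕ := Nat.add (Nat.mul E k) (st c1 c2 k)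

/-- increments -/
def Ad (B E c1 c2 k : ℕ) : ℕ := Nat.pow B (ex E c1 c2 k)

/-- the two neighbours -/
def Bq (B E c1 c2 k : ℕ) : ℕ :=
  Nat.add (Nat.pow B (ex E c1 c2 1)) (Nat.pow B (ex E c1 c2 (Nat.succ k)))

/-- one coordinate of a general vector -/
def FF (B E c1 c2 K : ℕ) : ℕ :=
  Nat.rec 1 (fun k r => Nat.add r (Nat.mul 2 (Nat.pow B (ex E c1 c2 (Nat.succ k))))) K

theorem st_zero (c1 c2 : ℕ) : st c1 c2 0 = 0 := rfl

theorem st_le (c1 c2 k : ℕ) : st c1 c2 k ≤ (c1 + c2) * k := by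
  rcases k with _ | _ | k
  · exact le_rfl
  · show c1 ≤ (c1 + c2) * 1
    omega
  · show c1 + c2 ≤ (c1 + c2) * (k + 2)
    nlinarith

theorem ex_eq (E c1 c2 k : ℕ) : ex E c1 c2 k = E * k + st c1 c2 k := rfl

noncomputable section

variable {ι : Type} [Fintype ι]

/-- statistic of a vector -/
def stN (c1 c2 : ℕ) (u : ι → ℕ) : ℕ := ∑ i, st c1 c2 (u i)

/-- exponent of a vector -/
def eN (E c1 c2 : ℕ) (u : ι → ℕ) : ℕ := ∑ i, ex E c1 c2 (u i)

theorem eN_eq (E c1 c2 : ℕ) (u : ι → ℕ) : eN E c1 c2 u = E * (∑ i, u i) + stN c1 c2 u := by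
  unfold eN stN
  rw [mul_sum, ← sum_add_distrib]
  rfl

theorem stN_le (c1 c2 : ℕ) (u : ι → ℕ) : stN c1 c2 u ≤ (c1 + c2) * ∑ i, u i := by
  unfold stN
  rw [mul_sum]
  exact sum_le_sum fun i _ => st_le c1 c2 (u i)

theorem eN_iff {E c1 c2 K : ℕ} (hE : (c1 + c2) * K < E) {n t : ℕ} (hn : n ≤ K) (ht : t < E)
    (u : ι → ℕ) : eN E c1 c2 u = t + E * n ↔ ∑ i, u i = n ∧ stN c1 c2 u = t := by
  rw [eN_eq]
  constructor
  · intro h
    have h1 : ∑ i, u i ≤ n := by
      by_contra h2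
      push Not at h2
      have h3 : E * (n + 1) ≤ E * ∑ i, u i := Nat.mul_le_mul_left E h2
      rw [mul_add, mul_one] at h3
      omega
    have h2 : stN c1 c2 u < E := by
      have h3 := stN_le c1 c2 u
      have h4 : (c1 + c2) * ∑ i, u i ≤ (c1 + c2) * K := Nat.mul_le_mul_left _ (by omega)
      omega
    have h3 : ¬ ∑ i, u i < n := by
      intro h4
      have h5 : E * (∑ i, u i + 1) ≤ E * n := Nat.mul_le_mul_left E h4
      rw [mul_add, mul_one] at h5
      omega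
    have h4 : ∑ i, u i = n := by omega
    rw [h4] at h
    exact ⟨h4, by omega⟩
  · rintro ⟨h1, h2⟩
    rw [h1, h2]
    ring

theorem AA_eq (B E c1 c2 k : ℕ) :
    AA (Ad B E c1 c2) k = ∑ j ∈ range (k + 1), B ^ ex E c1 c2 j := by
  induction k with
  | zero =>
    rw [sum_range_one]
    show 1 = B ^ (E * 0 + 0)
    simp
  | succ k ih =>
    rw [sum_range_succ, ← ih]
    rfl

theorem FF_eq (B E c1 c2 K : ℕ) : FF B E c1 c2 K =
    ∑ j ∈ range (K + 1), (if j ≠ 0 then 2 else 1) * B ^ ex E c1 c2 j := by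
  induction K with
  | zero =>
    rw [sum_range_one]
    show 1 = 1 * B ^ (E * 0 + 0)
    simp
  | succ k ih =>
    rw [sum_range_succ, ← ih, if_pos (Nat.succ_ne_zero k)]
    rfl

theorem prod_AA (B E c1 c2 : ℕ) (a : ι → ℕ) : ∏ i, AA (Ad B E c1 c2) (a i) =
    ∑ u ∈ Fintype.piFinset fun i => range (a i + 1), 1 * B ^ eN E c1 c2 u := by
  simp only [AA_eq]
  rw [Finset.prod_univ_sum]
  refine sum_congr rfl fun u _ => ?_
  rw [one_mul, eN, prod_pow_eq_pow_sum]

theorem pow_FF (B E c1 c2 K : ℕ) : FF B E c1 c2 K ^ Fintype.card ι =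
    ∑ u ∈ Fintype.piFinset fun _ : ι => range (K + 1), 2 ^ lN u * B ^ eN E c1 c2 u := by
  have h1 : FF B E c1 c2 K ^ Fintype.card ι = ∏ _i : ι, FF B E c1 c2 K := by
    rw [prod_const, card_univ]
  rw [h1]
  simp only [FF_eq]
  rw [Finset.prod_univ_sum]
  refine sum_congr rfl fun u _ => ?_
  rw [prod_mul_distrib, eN, prod_pow_eq_pow_sum]
  congr 1
  rw [prod_ite, prod_const, prod_const_one, mul_one, lN]

/-- one coordinate fixed and raised by one -/
theorem prod_up (B E c1 c2 : ℕ) (a : ι → ℕ) (i : ι) (c : ℕ) (hc : c ≤ a i) :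
    B ^ ex E c1 c2 (c + 1) * ∏ j ∈ univ.erase i, AA (Ad B E c1 c2) (a j) =
      ∑ u ∈ Fintype.piFinset fun i => range (a i + 1),
        (if u i = c then 1 else 0) * B ^ eN E c1 c2 (up u i) := by
  have h1 : B ^ ex E c1 c2 (c + 1) * ∏ j ∈ univ.erase i, AA (Ad B E c1 c2) (a j) =
      ∏ j, ∑ k ∈ range (a j + 1), if j = i then (if k = c then B ^ ex E c1 c2 (k + 1) else 0)
        else B ^ ex E c1 c2 k := by
    rw [← Finset.mul_prod_erase univ (fun j => ∑ k ∈ range (a j + 1), if j = i then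
      (if k = c then B ^ ex E c1 c2 (k + 1) else 0) else B ^ ex E c1 c2 k) (mem_univ i)]
    congr 1
    · simp only [if_true]
      rw [sum_ite_eq' (range (a i + 1)) c, if_pos (mem_range.2 (by omega))]
    · refine prod_congr rfl fun j hj => ?_
      rw [AA_eq]
      exact sum_congr rfl fun k _ => (if_neg (ne_of_mem_erase hj)).symm
  rw [h1, Finset.prod_univ_sum]
  refine sum_congr rfl fun u _ => ?_
  by_cases h : u i = c
  · rw [if_pos h, one_mul, eN, ← prod_pow_eq_pow_sum]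
    refine prod_congr rfl fun j _ => ?_
    unfold up
    by_cases hj : j = i
    · subst hj
      rw [if_pos rfl, if_pos h, Function.update_self]
    · rw [if_neg hj, Function.update_of_ne hj]
  · rw [if_neg h, zero_mul]
    refine prod_eq_zero (mem_univ i) ?_
    rw [if_pos rfl, if_neg h]

theorem SS_eq (B E c1 c2 : ℕ) (a : ι → ℕ) :
    SS (Ad B E c1 c2) (Bq B E c1 c2) univ a =
      ∑ x ∈ univ ×ˢ (Fintype.piFinset fun i => range (a i + 1)),
        ((if x.2 x.1 = 0 then 1 else 0) + (if x.2 x.1 = a x.1 then 1 else 0)) *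
          B ^ eN E c1 c2 (up x.2 x.1) := by
  unfold SS
  rw [sum_product]
  refine sum_congr rfl fun i _ => ?_
  have h1 : Bq B E c1 c2 (a i) = B ^ ex E c1 c2 (0 + 1) + B ^ ex E c1 c2 (a i + 1) := rfl
  rw [h1, add_mul, prod_up B E c1 c2 a i 0 (Nat.zero_le _), prod_up B E c1 c2 a i (a i) le_rfl,
    ← sum_add_distrib]
  exact sum_congr rfl fun u _ => by ring

theorem card_le (a : ι → ℕ) : #(Fintype.piFinset fun i => range (a i + 1)) ≤ 2 ^ ∑ i, a i := by
  rw [Fintype.card_piFinset]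
  simp only [card_range]
  rw [← prod_pow_eq_pow_sum]
  exact prod_le_prod' fun i _ => Nat.succ_le_of_lt (Nat.lt_two_pow_self)

theorem sv_filter {E c1 c2 K : ℕ} (hE : (c1 + c2) * K < E) {n t : ℕ} (hn : n ≤ K) (ht : t < E)
    (a : ι → ℕ) :
    ({u ∈ Fintype.piFinset fun i => range (a i + 1) | eN E c1 c2 u = t + E * n} :
      Finset (ι → ℕ)) = {u ∈ sv a n | stN c1 c2 u = t} := by
  ext u
  rw [mem_filter, mem_filter, eN_iff hE hn ht, sv, mem_filter]
  tauto

theorem dg_P {E c1 c2 K : ℕ} (hE : (c1 + c2) * K < E) {n t : ℕ} (hn : n ≤ K) (ht : t < E)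
    (B : ℕ) (a : ι → ℕ) (hB : 2 ^ ∑ i, a i < B) :
    dg B (∏ i, AA (Ad B E c1 c2) (a i)) (t + E * n) = #{u ∈ sv a n | stN c1 c2 u = t} := by
  rw [prod_AA, dg_sum, sv_filter hE hn ht, sum_const, smul_eq_mul, mul_one]
  rw [sum_const, smul_eq_mul, mul_one]
  exact lt_of_le_of_lt (card_le a) hB

theorem sum_up' (u : ι → ℕ) (i : ι) : ∑ j, up u i j = ∑ j, u j + 1 := by
  unfold up
  rw [Finset.sum_update_of_mem (mem_univ i), ← Finset.add_sum_erase univ u (mem_univ i),
    Finset.sdiff_singleton_eq_erase]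
  ring

theorem dg_Q {E c1 c2 s : ℕ} (hE : (c1 + c2) * (s + 3) < E) {t : ℕ} (ht : t < E)
    (B : ℕ) (a : ι → ℕ) (hB : 2 * Fintype.card ι * 2 ^ ∑ i, a i < B) :
    dg B (SS (Ad B E c1 c2) (Bq B E c1 c2) univ a) (t + E * (s + 3)) =
      ∑ u ∈ sv a (s + 2), ∑ i, ((if u i = 0 then 1 else 0) + (if u i = a i then 1 else 0)) *
        (if stN c1 c2 (up u i) = t then 1 else 0) := by
  rw [SS_eq, dg_sum]
  · rw [sum_filter, sum_product, sum_comm]
    have h1 : sv a (s + 2) = ({u ∈ Fintype.piFinset fun i => range (a i + 1) |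
      ∑ i, u i = s + 2} : Finset (ι → ℕ)) := rfl
    rw [h1, sum_filter]
    refine sum_congr rfl fun u _ => ?_
    by_cases h : ∑ i, u i = s + 2
    · rw [if_pos h]
      refine sum_congr rfl fun i _ => ?_
      have h2 : eN E c1 c2 (up u i) = t + E * (s + 3) ↔ stN c1 c2 (up u i) = t := by
        rw [eN_iff hE le_rfl ht]
        have h3 : ∑ j, up u i j = s + 3 := by
          rw [sum_up', h]
        tauto
      by_cases h3 : stN c1 c2 (up u i) = t
      · rw [if_pos h3, if_pos (h2.2 h3), mul_one]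
      · rw [if_neg h3, if_neg fun h4 => h3 (h2.1 h4), mul_zero]
    · rw [if_neg h]
      refine sum_eq_zero fun i _ => ?_
      rw [if_neg]
      rw [eN_iff hE le_rfl ht]
      rintro ⟨h3, -⟩
      rw [sum_up'] at h3
      exact h (Nat.succ_injective h3)
  · refine lt_of_le_of_lt ?_ hB
    rw [sum_product]
    have h1 : ∀ i ∈ (univ : Finset ι), ∑ u ∈ Fintype.piFinset fun i => range (a i + 1),
        ((if u i = 0 then 1 else 0) + (if u i = a i then 1 else 0)) ≤ 2 * 2 ^ ∑ i, a i := by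
      intro i _
      calc _ ≤ ∑ _u ∈ Fintype.piFinset fun i => range (a i + 1), 2 := by
            refine sum_le_sum fun u _ => ?_
            split_ifs <;> omega
        _ ≤ _ := by
          rw [sum_const, smul_eq_mul, mul_comm]
          exact Nat.mul_le_mul_left 2 (card_le a)
    refine (sum_le_sum h1).trans ?_
    rw [sum_const, card_univ, smul_eq_mul]
    apply le_of_eq
    ring

theorem dg_M {E c1 c2 K : ℕ} (hE : (c1 + c2) * K < E) {n t : ℕ} (hn : n ≤ K) (ht : t < E)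
    (B : ℕ) (hB : (2 * K + 1) ^ Fintype.card ι < B) :
    dg B (FF B E c1 c2 K ^ Fintype.card ι) (t + E * n) =
      ∑ u ∈ nv ι n with stN c1 c2 u = t, 2 ^ lN u := by
  rw [pow_FF, dg_sum]
  · refine sum_congr ?_ fun _ _ => rfl
    ext u
    rw [mem_filter, mem_filter, eN_iff hE hn ht, mem_nv, Fintype.mem_piFinset]
    constructor
    · rintro ⟨-, h1, h2⟩
      exact ⟨h1, h2⟩
    · rintro ⟨h1, h2⟩
      refine ⟨fun i => ?_, h1, h2⟩
      rw [mem_range]
      have := single_le_sum (f := u) (fun _ _ => Nat.zero_le _) (mem_univ i)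
      omega
  · have h1 := pow_FF (ι := ι) 1 E c1 c2 K
    simp only [one_pow, mul_one] at h1
    rw [← h1, FF_eq]
    simp only [one_pow, mul_one]
    have h2 : ∑ j ∈ range (K + 1), (if j ≠ 0 then 2 else 1) = 2 * K + 1 := by
      rw [sum_range_succ']
      simp only [ne_eq, Nat.add_eq_zero_iff, one_ne_zero, and_false, not_false_eq_true, if_true,
        not_true_eq_false, if_false, sum_const, card_range, smul_eq_mul]
      ring
    rw [h2]
    exact hB

/-- weights of a list -/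
def wt (L : List (ℕ × ℕ)) (t : ℕ) : ℕ := (L.map fun x => if t = x.1 then x.2 else 0).sum

/-- evaluation of a list on digits -/
def evN (B off p : ℕ) (L : List (ℕ × ℕ)) (r : ℕ) : ℕ :=
  List.foldr (fun x r => Nat.add (Nat.mul x.2 (dg B p (Nat.add x.1 off))) r) r L

theorem evN_eq (B off p : ℕ) (L : List (ℕ × ℕ)) (r : ℕ) :
    evN B off p L r = (L.map fun x => x.2 * dg B p (x.1 + off)).sum + r := by
  induction L with
  | nil => simp [evN]
  | cons x L ih =>
    have h : evN B off p (x :: L) r = x.2 * dg B p (x.1 + off) + evN B off p L r := rfl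
    rw [h, ih, List.map_cons, List.sum_cons, add_assoc]

theorem sum_wt {α : Type} (S : Finset α) (w : α → ℕ) (ph : α → ℕ) (L : List (ℕ × ℕ)) :
    ∑ x ∈ S, w x * wt L (ph x) = (L.map fun y => y.2 * ∑ x ∈ S with ph x = y.1, w x).sum := by
  induction L with
  | nil => simp [wt]
  | cons y L ih =>
    have h : ∀ t, wt (y :: L) t = (if t = y.1 then y.2 else 0) + wt L t := fun t => by
      simp [wt]
    rw [List.map_cons, List.sum_cons, ← ih, sum_filter, mul_sum, ← sum_add_distrib]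
    refine sum_congr rfl fun x _ => ?_
    rw [h]
    split_ifs <;> ring

theorem ev_P {E c1 c2 K : ℕ} (hE : (c1 + c2) * K < E) {n : ℕ} (hn : n ≤ K)
    (B : ℕ) (a : ι → ℕ) (hB : 2 ^ ∑ i, a i < B) (L : List (ℕ × ℕ)) (hL : ∀ x ∈ L, x.1 < E)
    (r : ℕ) : evN B (E * n) (∏ i, AA (Ad B E c1 c2) (a i)) L r =
      ∑ u ∈ sv a n, wt L (stN c1 c2 u) + r := by
  rw [evN_eq]
  congr 1
  have h1 := sum_wt (sv a n) (fun _ => 1) (stN c1 c2) L
  simp only [one_mul] at h1
  rw [h1]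
  congr 1
  refine List.map_congr_left fun x hx => ?_
  rw [dg_P hE hn (hL x hx) B a hB, sum_const, smul_eq_mul, mul_one]

theorem ev_Q {E c1 c2 s : ℕ} (hE : (c1 + c2) * (s + 3) < E)
    (B : ℕ) (a : ι → ℕ) (hB : 2 * Fintype.card ι * 2 ^ ∑ i, a i < B) (L : List (ℕ × ℕ))
    (hL : ∀ x ∈ L, x.1 < E) (r : ℕ) :
    evN B (E * (s + 3)) (SS (Ad B E c1 c2) (Bq B E c1 c2) univ a) L r =
      ∑ u ∈ sv a (s + 2), ∑ i, ((if u i = 0 then 1 else 0) + (if u i = a i then 1 else 0)) *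
        wt L (stN c1 c2 (up u i)) + r := by
  rw [evN_eq]
  congr 1
  rw [← sum_product' (sv a (s + 2)) univ (fun u i => ((if u i = 0 then 1 else 0) +
    (if u i = a i then 1 else 0)) * wt L (stN c1 c2 (up u i))),
    sum_wt (sv a (s + 2) ×ˢ univ) (fun x => (if x.1 x.2 = 0 then 1 else 0) +
    (if x.1 x.2 = a x.2 then 1 else 0)) (fun x => stN c1 c2 (up x.1 x.2)) L]
  congr 1
  refine List.map_congr_left fun x hx => ?_
  rw [dg_Q hE (hL x hx) B a hB, sum_filter, sum_product]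
  congr 1
  refine sum_congr rfl fun u _ => sum_congr rfl fun i _ => ?_
  split_ifs <;> simp

theorem ev_M {E c1 c2 K : ℕ} (hE : (c1 + c2) * K < E) {n : ℕ} (hn : n ≤ K)
    (B : ℕ) (hB : (2 * K + 1) ^ Fintype.card ι < B) (L : List (ℕ × ℕ)) (hL : ∀ x ∈ L, x.1 < E)
    {x : ℕ} (hx : x ≡ FF B E c1 c2 K ^ Fintype.card ι [MOD B ^ (E * (K + 1))])
    (r : ℕ) : evN B (E * n) x L r = ∑ u ∈ nv ι n, 2 ^ lN u * wt L (stN c1 c2 u) + r := by
  rw [evN_eq]
  congr 1
  rw [sum_wt (nv ι n) (fun u => 2 ^ lN u) (stN c1 c2) L]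
  congr 1
  refine List.map_congr_left fun y hy => ?_
  have h1 : y.1 + E * n < E * (K + 1) := by
    have h2 := hL y hy
    have h3 : E * n ≤ E * K := Nat.mul_le_mul_left E hn
    rw [mul_add, mul_one]
    omega
  rw [dg_mod hx h1, dg_M hE hn (hL y hy) B hB]

/-- first test -/
def test1 (B E s : ℕ) (hp hn fp fn gp gn : List (ℕ × ℕ)) (p q : ℕ) : Bool :=
  Nat.ble
    (evN B (E * (s + 1)) p hn (evN B (E * (s + 2)) p fn (evN B (E * (s + 3)) p gn
      (evN B (E * (s + 3)) q gn 0))))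
    (evN B (E * (s + 1)) p hp (evN B (E * (s + 2)) p fp (evN B (E * (s + 3)) p gp
      (evN B (E * (s + 3)) q gp 0))))

/-- second test -/
def test2 (B E s : ℕ) (fp fn gp gn : List (ℕ × ℕ)) (p _q : ℕ) : Bool :=
  Nat.ble (evN B (E * (s + 2)) p fn (evN B (E * (s + 3)) p gn 0))
    (evN B (E * (s + 2)) p fp (evN B (E * (s + 3)) p gp 0))

/-- third test -/
def test3 (B E s : ℕ) (gp gn : List (ℕ × ℕ)) (p _q : ℕ) : Bool :=
  Nat.ble (evN B (E * (s + 3)) p gn 0) (evN B (E * (s + 3)) p gp 0)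

/-- the total is negative -/
def test0 (B E s : ℕ) (hp hn fp fn gp gn : List (ℕ × ℕ)) (p : ℕ) : Bool :=
  Nat.ble
    (Nat.succ (evN B (E * (s + 1)) p hp (evN B (E * (s + 2)) p fp (evN B (E * (s + 3)) p gp 0))))
    (evN B (E * (s + 1)) p hn (evN B (E * (s + 2)) p fn (evN B (E * (s + 3)) p gn 0)))

/-- all side conditions and tests -/
def okC (B C E c1 c2 s m : ℕ) (hp hn fp fn gp gn : List (ℕ × ℕ)) : Prop :=
  (c1 + c2) * (s + 3) < E ∧ (2 * m + 1) * 2 ^ (2 * s + 3) < B ∧ (2 * (s + 3) + 1) ^ m < C ∧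
  (∀ L ∈ [hp, hn, fp, fn, gp, gn], ∀ x ∈ L, x.1 < E) ∧
  chk (Ad B E c1 c2) (Bq B E c1 c2) (test1 B E s hp hn fp fn gp gn) m (2 * s + 1) (2 * s + 1)
    1 0 = true ∧
  chk (Ad B E c1 c2) (fun _ => 0) (test2 B E s fp fn gp gn) m (2 * s + 2) (2 * s + 2)
    1 0 = true ∧
  chk (Ad B E c1 c2) (fun _ => 0) (test3 B E s gp gn) m (2 * s + 3) (2 * s + 3)
    1 0 = true ∧
  powmod (FF C E c1 c2 (s + 3)) (C ^ (E * (s + 3 + 1))) m 1
    (test0 C E s hp hn fp fn gp gn) = true

theorem fin_main (hZ : T_CZ) {G : Type} [AddCommGroup G] {s : ℕ} {ev : (ι → ℤ) →+ G}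
    (h0 : PC s ev) (B C E c1 c2 : ℕ) (hp hn fp fn gp gn : List (ℕ × ℕ))
    (hok : okC B C E c1 c2 s (Fintype.card ι) hp hn fp fn gp gn) : False := by
  obtain ⟨hE, hB, hC, hL, h1, h2, h3, h4⟩ := hok
  have hB1 : ∀ a : ι → ℕ, ∑ i, a i ≤ 2 * s + 3 → 2 ^ ∑ i, a i < B ∧
      2 * Fintype.card ι * 2 ^ ∑ i, a i < B := by
    intro a ha
    have h5 : 2 ^ ∑ i, a i ≤ 2 ^ (2 * s + 3) := Nat.pow_le_pow_right (by omega) ha
    have h6 := Nat.mul_le_mul_left (2 * Fintype.card ι) h5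
    have h7 : (2 * Fintype.card ι + 1) * 2 ^ (2 * s + 3) =
      2 * Fintype.card ι * 2 ^ (2 * s + 3) + 2 ^ (2 * s + 3) := by ring
    have h8 : 0 ≤ 2 * Fintype.card ι * 2 ^ (2 * s + 3) := Nat.zero_le _
    rw [h7] at hB
    constructor
    · exact lt_of_le_of_lt (h5.trans (Nat.le_add_left _ _)) hB
    · exact lt_of_le_of_lt (h6.trans (Nat.le_add_right _ _)) hB
  have hle : ∀ a : ι → ℕ, ∀ i, a i ≤ ∑ j, a j := fun a i =>
    single_le_sum (f := a) (fun _ _ => Nat.zero_le _) (mem_univ i)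
  simp only [List.mem_cons, List.mem_nil_iff, or_false, forall_eq_or_imp, forall_eq] at hL
  obtain ⟨l1, l2, l3, l4, l5, l6⟩ := hL
  have key := hZ ι G s ev h0 (fun u => (wt hp (stN c1 c2 u) : ℝ) - wt hn (stN c1 c2 u))
    (fun u => (wt fp (stN c1 c2 u) : ℝ) - wt fn (stN c1 c2 u))
    (fun u => (wt gp (stN c1 c2 u) : ℝ) - wt gn (stN c1 c2 u)) ?_ ?_ ?_
  · obtain ⟨x, hx, h5⟩ := powmod_eq _ _ _ _ _ h4
    rw [one_mul] at hx
    unfold test0 at h5
    rw [Nat.ble_eq] at h5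
    rw [ev_M hE (by omega) C hC hp l1 hx, ev_M hE (by omega) C hC fp l3 hx,
      ev_M hE (by omega) C hC gp l5 hx, ev_M hE (by omega) C hC hn l2 hx,
      ev_M hE (by omega) C hC fn l4 hx, ev_M hE (by omega) C hC gn l6 hx] at h5
    have h6 := (Nat.cast_lt (α := ℝ)).2 (Nat.lt_of_succ_le h5)
    push_cast at h6
    simp only [mul_sub, sum_sub_distrib] at key
    linarith
  · intro a ha
    have h5 := chk_sound (ι := ι) _ _ _ _ _ _ _ _ univ a (card_univ) (fun i _ => by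
      have := hle a i
      omega) ha h1
    rw [one_mul, zero_mul, zero_add, one_mul] at h5
    unfold test1 at h5
    obtain ⟨b1, b2⟩ := hB1 a (by omega)
    rw [Nat.ble_eq, ev_P hE (by omega) B a b1 hn l2, ev_P hE (by omega) B a b1 fn l4,
      ev_P hE (by omega) B a b1 gn l6, ev_Q hE B a b2 gn l6,
      ev_P hE (by omega) B a b1 hp l1, ev_P hE (by omega) B a b1 fp l3,
      ev_P hE (by omega) B a b1 gp l5, ev_Q hE B a b2 gp l5] at h5
    have h6 := (Nat.cast_le (α := ℝ)).2 h5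
    push_cast at h6
    unfold NB
    simp only [mul_sub, sum_sub_distrib]
    linarith
  · intro a ha
    have h5 := chk_sound (ι := ι) _ _ _ _ _ _ _ _ univ a (card_univ) (fun i _ => by
      have := hle a i
      omega) ha h2
    rw [one_mul] at h5
    unfold test2 at h5
    obtain ⟨b1, b2⟩ := hB1 a (by omega)
    rw [Nat.ble_eq, ev_P hE (by omega) B a b1 fn l4,
      ev_P hE (by omega) B a b1 gn l6, ev_P hE (by omega) B a b1 fp l3,
      ev_P hE (by omega) B a b1 gp l5] at h5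
    have h6 := (Nat.cast_le (α := ℝ)).2 h5
    push_cast at h6
    simp only [sum_sub_distrib]
    linarith
  · intro a ha
    have h5 := chk_sound (ι := ι) _ _ _ _ _ _ _ _ univ a (card_univ) (fun i _ => by
      have := hle a i
      omega) ha h3
    rw [one_mul] at h5
    unfold test3 at h5
    obtain ⟨b1, b2⟩ := hB1 a (by omega)
    rw [Nat.ble_eq, ev_P hE (by omega) B a b1 gn l6, ev_P hE (by omega) B a b1 gp l5] at h5
    have h6 := (Nat.cast_le (α := ℝ)).2 h5
    push_cast at h6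
    simp only [sum_sub_distrib]
    linarith

end

end Pool.Agent.H28.GR
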